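import Pool.Agent.H623.TG.J
import Pool.Graph.R_seed8.Y964.LW.C1
import Pool.Graph.R_seed8.H499R2.LT.R5
import Pool.Graph.R_seed8.H499R2.CO.F

/-! Distances in the truncated graph, part A: hitting times of finite sets in residue classes. -/

set_option autoImplicit false

namespace Pool.Agent.H623.DG

open Finset Filter Topology
open Pool.Agent.H499R2.CO (Tz surv step q count_le exists_k)
open Pool.Agent.R344.TH (Tz_even Tz_odd Cz Cz_even Cz_odd Cz_Cz_odd)
open Pool.Agent.Y964.LW (oc oc_zero oc_succ coal2)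
open Pool.Agent.H623.TG (C C_side_iter Cpos Cpos_iter Tpos Tpos_iter abs_side)

theorem oc_le (d : ℤ) : ∀ (t : ℕ) (x : ℤ), oc d t x ≤ t
  | 0, x => le_rfl
  | t + 1, x => by
    rw [oc_succ]
    have := oc_le d t (Tz d x)
    split_ifs <;> omega

/-- the time change -/
theorem C_run {s : ℤ} (hs : s = 1 ∨ s = -1) : ∀ (t : ℕ) (n : ℤ), (Cz s)^[t + oc s t n] n = (Tz s)^[t] n
  | 0, n => rfl
  | t + 1, n => by
    rw [oc_succ, Function.iterate_succ_apply (Tz s)]
    have ih := C_run hs t (Tz s n)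
    rcases Int.emod_two_eq_zero_or_one n with hp | hp
    · rw [if_neg (by omega), zero_add, show t + 1 + oc s t (Tz s n) = (t + oc s t (Tz s n)) + 1 by ring,
        Function.iterate_succ_apply, Cz_even hp, ih]
    · have hs2 : s % 2 = 1 := by rcases hs with rfl | rfl <;> norm_num
      rw [if_pos hp, show t + 1 + (1 + oc s t (Tz s n)) = (t + oc s t (Tz s n)) + 1 + 1 by ring,
        Function.iterate_succ_apply, Function.iterate_succ_apply, Cz_Cz_odd hs2 (by omega), ih]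

theorem Cz_half {s : ℤ} (hs : s = 1 ∨ s = -1) {x : ℤ} (hx : 0 < x) : x ≤ 2 * Cz s x := by
  unfold Cz
  split_ifs <;> rcases hs with rfl | rfl <;> omega

theorem Cz_iter_half {s : ℤ} (hs : s = 1 ∨ s = -1) : ∀ (i : ℕ) {x : ℤ}, 0 < x → x ≤ 2 ^ i * (Cz s)^[i] x
  | 0, x, _ => by simp
  | i + 1, x, hx => by
    have h1 := Cz_half hs hx
    have h2 := Cz_iter_half hs i (Cpos hs hx)
    rw [Function.iterate_succ_apply]
    calc x ≤ 2 * Cz s x := h1
      _ ≤ 2 * (2 ^ i * (Cz s)^[i] (Cz s x)) := by linarith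
      _ = _ := by rw [pow_succ]; ring

/-- the trajectory of `s n` hits `F` within `τ` steps -/
def Ev (s : ℤ) (F : Finset ℤ) (τ : ℝ) (n : ℕ) : Prop := ∃ i : ℕ, (i : ℝ) ≤ τ ∧ C^[i] (s * n) ∈ F

theorem Ev_mono {s : ℤ} {F : Finset ℤ} (τ τ' : ℝ) (n : ℕ) (h : τ ≤ τ') (hE : Ev s F τ n) : Ev s F τ' n := by
  obtain ⟨i, h1, h2⟩ := hE
  exact ⟨i, h1.trans h, h2⟩

theorem Ev_imp {s : ℤ} (hs : s = 1 ∨ s = -1) {F : Finset ℤ} {W : ℕ} (hF : ∀ z ∈ F, |z| ≤ W) {k : ℕ} {n n' : ℕ}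
    (hn : 4 ^ k * W < n) {c : ℕ} (hc : c ≤ 2 * k)
    (he : C^[c] (s * (n : ℤ)) = C^[c] (s * (n' : ℤ))) {τ : ℝ} (hE : Ev s F τ n) : Ev s F τ n' := by
  obtain ⟨i, h1, h2⟩ := hE
  refine ⟨i, h1, ?_⟩
  have hn0 : (0 : ℤ) < n := by
    have : 0 ≤ 4 ^ k * W := Nat.zero_le _
    exact_mod_cast lt_of_le_of_lt this hn
  have h3 := hF _ h2
  rw [abs_side hs hn0] at h3
  have h4 := Cz_iter_half hs i hn0
  have hi : 2 * k < i := by
    by_contra hcon
    push Not at hcon
    have h5 : (2 : ℤ) ^ i ≤ 2 ^ (2 * k) := pow_le_pow_right₀ (by norm_num) hcon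
    have h6 : (2 : ℤ) ^ i * (Cz s)^[i] n ≤ 2 ^ (2 * k) * W :=
      mul_le_mul h5 h3 (Cpos_iter hs hn0 i).le (by positivity)
    have h7 : (n : ℤ) ≤ 4 ^ k * W := by
      rw [pow_mul] at h6
      norm_num at h6
      linarith
    have h8 : ((4 ^ k * W : ℕ) : ℤ) < (n : ℤ) := by exact_mod_cast hn
    push_cast at h8
    linarith
  obtain ⟨e, rfl⟩ := Nat.exists_eq_add_of_le (hc.trans hi.le)
  rw [add_comm, Function.iterate_add_apply] at h2 ⊢
  rwa [← he]

/-- the events agree at `n` and `n + h` -/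
theorem Ev_loc {s : ℤ} (hs : s = 1 ∨ s = -1) {F : Finset ℤ} {W : ℕ} (hF : ∀ z ∈ F, |z| ≤ W) {k h n : ℕ}
    (hn : 4 ^ k * W < n) (hsv : ¬ surv s k (0, s * (h : ℤ)) (n : ℤ)) (τ : ℝ) : Ev s F τ n ↔ Ev s F τ (n + h) := by
  have hs2 : s % 2 = 1 := by rcases hs with rfl | rfl <;> norm_num
  have hss : s * (s * (h : ℤ)) = h := by rcases hs with rfl | rfl <;> ring
  obtain ⟨t, ht, h1, h2⟩ := coal2 hs2 k 0 (s * (h : ℤ)) (n : ℤ) hsv
  rw [pow_zero, one_mul, hss] at h1 h2
  have h3 : oc s t (n : ℤ) = oc s t ((n : ℤ) + h) := by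
    push_cast at h2
    have : (oc s t (n : ℤ) : ℤ) = oc s t ((n : ℤ) + h) := by simpa using h2
    exact_mod_cast this
  have e : C^[t + oc s t (n : ℤ)] (s * (n : ℤ)) = C^[t + oc s t (n : ℤ)] (s * ((n + h : ℕ) : ℤ)) := by
    rw [C_side_iter hs, C_side_iter hs, C_run hs]
    push_cast
    rw [h3, C_run hs, h1]
  have hc : t + oc s t (n : ℤ) ≤ 2 * k := by have := oc_le s t (n : ℤ); omega
  constructor
  · exact fun hE => Ev_imp hs hF hn hc e hE
  · exact fun hE => Ev_imp hs hF (lt_of_lt_of_le hn (Nat.le_add_right n h)) hc e.symm hE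

open Classical in
/-- the number of the `n ≤ M` in a residue class with the property `P` -/
noncomputable def cP (P : ℕ → Prop) (M q : ℕ) (r : ℕ) : ℕ := ((Icc 1 M).filter (fun n => n % q = r ∧ P n)).card

theorem cP_le (P : ℕ → Prop) (M q r : ℕ) : cP P M q r ≤ M := by
  classical
  unfold cP
  refine (card_filter_le _ _).trans ?_
  rw [Nat.card_Icc]; omega

/-- a shift changes little -/
theorem cP_shift {s : ℤ} (hs : s = 1 ∨ s = -1) {q : ℕ} {ε : ℝ} (hε : 0 < ε) (W : ℕ) : ∃ N0 : ℕ,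
    ∀ F : Finset ℤ, (∀ z ∈ F, |z| ≤ W) → ∀ τ : ℝ, ∀ N : ℕ, N0 ≤ N → ∀ M : ℕ, M ≤ N → ∀ r h : ℕ, r + h < q →
      (cP (Ev s F τ) M q r : ℝ) ≤ cP (Ev s F τ) M q (r + h) + ε * N ∧
      (cP (Ev s F τ) M q (r + h) : ℝ) ≤ cP (Ev s F τ) M q r + ε * N := by
  classical
  have hs2 : s % 2 = 1 := by rcases hs with rfl | rfl <;> norm_num
  choose k hk using fun h : ℕ => exists_k (s * (h : ℤ)) (show 0 < ε / 4 by positivity)
  set K := (range q).sup k with hK
  have hkK : ∀ h < q, k h ≤ K := fun h hh => Finset.le_sup (f := k) (mem_range.2 hh)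
  obtain ⟨N1, hN1⟩ := exists_nat_ge ((2 : ℝ) ^ K + 1)
  obtain ⟨N2, hN2⟩ := exists_nat_ge (4 * ((4 : ℝ) ^ K * W + q + 1) / ε)
  refine ⟨max N1 N2, fun F hF τ N hN M hM r h hrh => ?_⟩
  have hh : h < q := by omega
  have hr : r < q := by omega
  have c1 : (N1 : ℝ) ≤ N := by exact_mod_cast (le_max_left _ _).trans hN
  have c2 : (N2 : ℝ) ≤ N := by exact_mod_cast (le_max_right _ _).trans hN
  rw [div_le_iff₀ hε] at hN2
  have hMR : (M : ℝ) ≤ N := by exact_mod_cast hM
  set S : Finset ℕ := (Icc 1 N).filter (fun n : ℕ => surv s (k h) (0, s * (h : ℤ)) (n : ℤ)) with hS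
  have hScard : (S.card : ℝ) ≤ ε / 2 * N := by
    have h1 := count_le hs2 (k h) (0, s * (h : ℤ)) N
    have h2 := hk h (k h) le_rfl
    have h3 : (2 : ℝ) ^ k h ≤ 2 ^ K := pow_le_pow_right₀ (by norm_num) (hkK h hh)
    refine h1.trans ?_
    have h5 : ((N : ℝ) + 2 ^ k h + 1) ≤ 2 * N := by linarith
    calc ((N : ℝ) + 2 ^ k h + 1) * Pool.Agent.H499R2.CO.q step (0, 0) (k h) (0, s * (h : ℤ)) ≤ (2 * N) * (ε / 4) := by
          refine mul_le_mul h5 h2 (Pool.Agent.H499R2.CO.q_nonneg _ _ _ _) (by positivity)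
      _ = ε / 2 * N := by ring
  have hloc : ∀ n : ℕ, 1 ≤ n → n ≤ N → 4 ^ K * W < n → n ∉ S → (Ev s F τ n ↔ Ev s F τ (n + h)) := by
    intro n hn1 hnN hnW hnS
    have h1 : 4 ^ k h * W < n := lt_of_le_of_lt (Nat.mul_le_mul_right W (Nat.pow_le_pow_right (by norm_num) (hkK h hh))) hnW
    exact Ev_loc hs hF h1 (fun hsv => hnS (by rw [hS, mem_filter, mem_Icc]; exact ⟨⟨hn1, hnN⟩, hsv⟩)) τ
  have hsmall : ((4 ^ K * W + q + 1 : ℕ) : ℝ) ≤ ε / 4 * N := by
    push_cast
    have := mul_le_mul_of_nonneg_right c2 hε.le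
    linarith
  have hmod : ∀ n : ℕ, n % q = r ↔ (n + h) % q = r + h ∧ True := by
    intro n
    constructor
    · intro h1
      refine ⟨?_, trivial⟩
      rw [Nat.add_mod, h1, Nat.mod_eq_of_lt hh, Nat.mod_eq_of_lt hrh]
    · rintro ⟨h1, -⟩
      have h2 : (n + h) ≡ (r + h) [MOD q] := by
        show (n + h) % q = (r + h) % q
        rw [h1, Nat.mod_eq_of_lt hrh]
      have h3 := Nat.ModEq.add_right_cancel' h h2
      have h4 : n % q = r % q := h3
      rwa [Nat.mod_eq_of_lt hr] at h4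
  constructor
  · -- `n ↦ n + h`
    have hsub : ((Icc 1 M).filter (fun n => n % q = r ∧ Ev s F τ n)).image (fun n => n + h) ⊆
        ((Icc 1 M).filter (fun n => n % q = r + h ∧ Ev s F τ n)) ∪ ((Ioc M (M + q)) ∪
          ((Icc 1 (4 ^ K * W)) ∪ S).image (fun n => n + h)) := by
      intro m hm
      rw [mem_image] at hm
      obtain ⟨n, hn, rfl⟩ := hm
      rw [mem_filter, mem_Icc] at hn
      obtain ⟨⟨hn1, hnM⟩, hnr, hnE⟩ := hn
      rw [mem_union, mem_union]
      by_cases hb : n ∈ Icc 1 (4 ^ K * W) ∪ S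
      · exact Or.inr (Or.inr (mem_image_of_mem _ hb))
      · rw [mem_union, mem_Icc, not_or] at hb
        rcases Nat.lt_or_ge M (n + h) with h1 | h1
        · right; left; rw [mem_Ioc]; omega
        · left
          rw [mem_filter, mem_Icc]
          refine ⟨by omega, ((hmod n).1 hnr).1, ?_⟩
          exact (hloc n hn1 (hnM.trans hM) (by omega) hb.2).1 hnE
    have h1 := card_le_card hsub
    rw [card_image_of_injective _ (add_left_injective h)] at h1
    have h2 : cP (Ev s F τ) M q r ≤ cP (Ev s F τ) M q (r + h) + (q + (4 ^ K * W + S.card)) := by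
      refine h1.trans ((card_union_le _ _).trans (Nat.add_le_add le_rfl ((card_union_le _ _).trans (Nat.add_le_add ?_ ?_))))
      · rw [Nat.card_Ioc]; omega
      · refine card_image_le.trans ((card_union_le _ _).trans (Nat.add_le_add ?_ le_rfl))
        rw [Nat.card_Icc]; omega
    have h3 : (cP (Ev s F τ) M q r : ℝ) ≤ ((cP (Ev s F τ) M q (r + h) + (q + (4 ^ K * W + S.card)) : ℕ) : ℝ) := by
      exact_mod_cast h2
    push_cast at h3 hsmall
    have : (0 : ℝ) ≤ N := Nat.cast_nonneg N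
    nlinarith
  · have hsub : ((Icc 1 M).filter (fun n => n % q = r + h ∧ Ev s F τ n)) ⊆
        ((Icc 1 M).filter (fun n => n % q = r ∧ Ev s F τ n)).image (fun n => n + h) ∪ ((Icc 1 q) ∪
          ((Icc 1 (4 ^ K * W)) ∪ S).image (fun n => n + h)) := by
      intro m hm
      rw [mem_filter, mem_Icc] at hm
      obtain ⟨⟨hm1, hmM⟩, hmr, hmE⟩ := hm
      rw [mem_union, mem_union]
      rcases Nat.lt_or_ge q m with h1 | h1
      · obtain ⟨n, rfl⟩ := Nat.exists_eq_add_of_le' (show h ≤ m by omega)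
        by_cases hb : n ∈ Icc 1 (4 ^ K * W) ∪ S
        · exact Or.inr (Or.inr (mem_image_of_mem _ hb))
        · left
          rw [mem_union, mem_Icc, not_or] at hb
          apply mem_image_of_mem
          rw [mem_filter, mem_Icc]
          refine ⟨by omega, (hmod n).2 ⟨hmr, trivial⟩, ?_⟩
          exact (hloc n (by omega) (by omega) (by omega) hb.2).2 hmE
      · right; left; rw [mem_Icc]; omega
    have h1 := card_le_card hsub
    have h2 : cP (Ev s F τ) M q (r + h) ≤ cP (Ev s F τ) M q r + (q + (4 ^ K * W + S.card)) := by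
      refine h1.trans ((card_union_le _ _).trans (Nat.add_le_add card_image_le ((card_union_le _ _).trans (Nat.add_le_add ?_ ?_))))
      · rw [Nat.card_Icc]; omega
      · refine card_image_le.trans ((card_union_le _ _).trans (Nat.add_le_add ?_ le_rfl))
        rw [Nat.card_Icc]; omega
    have h3 : (cP (Ev s F τ) M q (r + h) : ℝ) ≤ ((cP (Ev s F τ) M q r + (q + (4 ^ K * W + S.card)) : ℕ) : ℝ) := by
      exact_mod_cast h2
    push_cast at h3 hsmall
    have : (0 : ℝ) ≤ N := Nat.cast_nonneg N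
    nlinarith

/-- EQUIDISTRIBUTION in the residue classes -/
theorem cP_unif {s : ℤ} (hs : s = 1 ∨ s = -1) {q : ℕ} (hq : 0 < q) {ε : ℝ} (hε : 0 < ε) (W : ℕ) : ∃ N0 : ℕ,
    ∀ F : Finset ℤ, (∀ z ∈ F, |z| ≤ W) → ∀ τ : ℝ, ∀ N : ℕ, N0 ≤ N → ∀ M : ℕ, M ≤ N → ∀ r < q,
      |(cP (Ev s F τ) M q r : ℝ) - (cP (Ev s F τ) M 1 0 : ℝ) / q| ≤ ε * N := by
  classical
  have hqR : (0 : ℝ) < q := by exact_mod_cast hq
  obtain ⟨N0, H⟩ := cP_shift hs (q := q) hε W
  refine ⟨N0, fun F hF τ N hN M hM r hr => ?_⟩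
  have hNR : (0 : ℝ) ≤ N := Nat.cast_nonneg N
  have hpair : ∀ r' < q, |(cP (Ev s F τ) M q r : ℝ) - cP (Ev s F τ) M q r'| ≤ ε * N := by
    intro r' hr'
    rcases le_total r r' with h | h
    · obtain ⟨e, rfl⟩ := Nat.exists_eq_add_of_le h
      obtain ⟨h1, h2⟩ := H F hF τ N hN M hM r e hr'
      rw [abs_le]; constructor <;> linarith
    · obtain ⟨e, rfl⟩ := Nat.exists_eq_add_of_le h
      obtain ⟨h1, h2⟩ := H F hF τ N hN M hM r' e hr
      rw [abs_le]; constructor <;> linarith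
  have hsum : (cP (Ev s F τ) M 1 0 : ℝ) = ∑ r' ∈ range q, (cP (Ev s F τ) M q r' : ℝ) := by
    have : cP (Ev s F τ) M 1 0 = ∑ r' ∈ range q, cP (Ev s F τ) M q r' := by
      unfold cP
      rw [card_eq_sum_card_fiberwise (f := fun n => n % q) (t := range q)]
      · apply sum_congr rfl
        intro r' _
        rw [filter_filter]
        congr 1
        ext n
        simp only [mem_filter, Nat.mod_one, true_and]
        tauto
      · intro n _
        rw [mem_coe, mem_range]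
        exact Nat.mod_lt _ hq
    rw [this]; push_cast; rfl
  have h1 : (cP (Ev s F τ) M q r : ℝ) - (cP (Ev s F τ) M 1 0 : ℝ) / q
      = (∑ r' ∈ range q, ((cP (Ev s F τ) M q r : ℝ) - cP (Ev s F τ) M q r')) / q := by
    rw [hsum, sum_sub_distrib, sum_const, card_range, nsmul_eq_mul]
    field_simp
  rw [h1, abs_div, abs_of_pos hqR, div_le_iff₀ hqR]
  refine (abs_sum_le_sum_abs _ _).trans ((sum_le_sum fun r' hr' => hpair r' (mem_range.1 hr')).trans ?_)
  rw [sum_const, card_range, nsmul_eq_mul]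
  linarith

end Pool.Agent.H623.DG
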