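import Pool.Agent.H623.DG.A

/-! Distances in the truncated graph, part B: the law of the hitting times on the share captured by `[-N, N]`. -/

set_option autoImplicit false

namespace Pool.Agent.H623.DG

open Finset Filter Topology
open Pool.Agent.H499R2.CO (Tz)
open Pool.Agent.H499R2.ND (Dn cnt cnt_eq Phi Phi_continuous tbC sg kpp phi_cdf)
open Pool.Agent.H499R2.LT (LevC LevT oC oC_le Dn_iff)
open Pool.Agent.R344.SP (od od_le)
open Pool.Agent.Y964.LW (thr fix_law)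
open Pool.Agent.H623.TG (C C_side_iter abs_side mn mn_pos mn_le_one kap kap_res cR cL Low cL_upper cL_lower exc)

theorem phi01 (x : ℝ) : 0 ≤ Phi x ∧ Phi x ≤ 1 := by
  rw [phi_cdf]
  exact ⟨ProbabilityTheory.cdf_nonneg _ _, ProbabilityTheory.cdf_le_one _ _⟩

/-- the drift -/
noncomputable def al : ℝ := 3 / Real.log (4 / 3)
/-- the standard deviation -/
noncomputable def sd : ℝ := sg * kpp

theorem sd_pos : 0 < sd := by
  unfold sd
  have h1 := Pool.Agent.H499R2.ND.sg_pos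
  have h2 := Real.log_pos (by norm_num : (1 : ℝ) < 3)
  have h3 := Real.log_pos (by norm_num : (1 : ℝ) < 2)
  unfold kpp
  positivity

theorem al_pos : 0 < al := by
  unfold al
  have h1 := Real.log_pos (by norm_num : (1 : ℝ) < 4 / 3)
  positivity

theorem tbC_thr (x : ℝ) (n : ℕ) : tbC x n = thr al sd x (Real.log n) := by
  unfold tbC thr al sd
  ring

theorem thr_eq {x L : ℝ} (hL : 0 ≤ L) : thr al sd x L = 3 / Real.log (4 / 3) * L
    + x * (Real.log 6 * Real.sqrt (2 * L / Real.log (4 / 3) ^ 3)) := by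
  rw [Pool.Agent.H499R2.ND.sgk_eq L hL]
  unfold thr al sd
  ring

theorem lev_iff {F : Finset ℤ} {τ : ℝ} {x : ℤ} : (∃ e o : ℕ, ((e + o : ℕ) : ℝ) ≤ τ ∧ LevC F e o x ∧
      (e : ℤ) ≡ 0 [ZMOD ((1 : ℕ) : ℤ)] ∧ (o : ℤ) ≡ 0 [ZMOD ((1 : ℕ) : ℤ)]) ↔ ∃ i : ℕ, (i : ℝ) ≤ τ ∧ C^[i] x ∈ F := by
  classical
  constructor
  · rintro ⟨e, o, h1, h2, _, _⟩
    exact ⟨e + o, h1, h2.1⟩
  · rintro ⟨i, h1, h2⟩
    have hex : ∃ i : ℕ, C^[i] x ∈ F := ⟨i, h2⟩
    set j := Nat.find hex with hj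
    have hji : j ≤ i := Nat.find_min' hex h2
    have hle := oC_le j x
    refine ⟨j - oC j x, oC j x, ?_, ?_, ?_, ?_⟩
    · rw [Nat.sub_add_cancel hle]
      have : (j : ℝ) ≤ i := by exact_mod_cast hji
      linarith
    · unfold LevC LevT
      rw [Nat.sub_add_cancel hle]
      exact ⟨Nat.find_spec hex, fun a ha => Nat.find_min hex ha, rfl⟩
    · push_cast; exact Int.modEq_one
    · push_cast; exact Int.modEq_one

/-- the law of the hitting time of a finite set -/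
theorem law_F {s : ℤ} (hs : s = 1 ∨ s = -1) (F : Finset ℤ) : ∃ δ : ℝ, 0 ≤ δ ∧ δ ≤ 1 ∧
    Dn (fun n : ℕ => ∃ t : ℕ, C^[t] (s * n) ∈ F) δ ∧
    ∀ x : ℝ, Dn (fun n => Ev s F (thr al sd x (Real.log n)) n) (δ * Phi x) := by
  obtain ⟨δ, h0, -, h1, h2⟩ := Pool.Agent.H499R2.LT.jointC hs F
  have hle : δ ≤ 1 := by
    refine le_of_tendsto h1 (Eventually.of_forall fun N => ?_)
    have h3 := Pool.Agent.H499R2.ND.cnt_le (fun n : ℕ => ∃ t : ℕ, Pool.Agent.H499R2.LT.Cz^[t] (s * n) ∈ F) N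
    rcases Nat.eq_zero_or_pos N with rfl | hN
    · simp
    · have : (0 : ℝ) < N := by exact_mod_cast hN
      rw [div_le_one this]
      exact h3
  refine ⟨δ, h0, hle, h1, fun x => ?_⟩
  have h3 := h2 x 1 0 0 le_rfl
  have e : δ / ((1 : ℕ) : ℝ) ^ 2 * Phi x = δ * Phi x := by push_cast; ring
  rw [e] at h3
  refine Dn_iff (fun n _ => ?_) h3
  rw [tbC_thr]
  exact lev_iff

/-- the set of the `x` whose trajectory hits `F` within `τ` steps -/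
def SE (F : Finset ℤ) (τ : ℝ) : Set ℤ := {x | ∃ i : ℕ, (i : ℝ) ≤ τ ∧ C^[i] x ∈ F}

theorem cR_cP (s : ℤ) (F : Finset ℤ) (τ : ℝ) (M : ℕ) {q r : ℕ} (hr : r < q) :
    cR s (SE F τ) M q (r : ℤ) = cP (Ev s F τ) M q r := by
  classical
  unfold cR cP
  congr 1
  ext n
  simp only [mem_filter, mem_Icc]
  have h : (q : ℤ) ∣ (n : ℕ) - (r : ℤ) ↔ n % q = r := by
    constructor
    · intro h
      have h1 : (n : ℤ) ≡ r [ZMOD q] := (Int.modEq_iff_dvd.2 (by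
        obtain ⟨t, ht⟩ := h
        exact ⟨-t, by linarith⟩))
      have h2 : n ≡ r [MOD q] := Int.natCast_modEq_iff.1 h1
      have h3 : n % q = r % q := h2
      rwa [Nat.mod_eq_of_lt hr] at h3
    · intro h
      refine ⟨((n / q : ℕ) : ℤ), ?_⟩
      have h1 := Nat.div_add_mod n q
      rw [h] at h1
      have h2 : ((q * (n / q) + r : ℕ) : ℤ) = (n : ℤ) := by rw [h1]
      push_cast at h2 ⊢
      linarith
  rw [h]
  exact Iff.rfl

theorem cP_cnt (P : ℕ → Prop) (M : ℕ) : (cP P M 1 0 : ℝ) = cnt P M := by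
  classical
  rw [cnt_eq]
  unfold cP
  simp only [Nat.mod_one, true_and]

/-- the sum over the residues -/
theorem cR_sum' {s : ℤ} (hs : s = 1 ∨ s = -1) (K : ℕ) {F : Finset ℤ} {δ : ℝ}
    (law : ∀ x : ℝ, Dn (fun n => Ev s F (thr al sd x (Real.log n)) n) (δ * Phi x)) (x : ℝ) {ε : ℝ} (hε : 0 < ε) :
    ∃ κ' : ℝ, 0 < κ' ∧ ∀ᶠ N : ℕ in atTop, ∀ τ : ℝ,
      |τ - thr al sd x (Real.log N)| ≤ κ' * Real.sqrt (Real.log N) →
      |∑ r ∈ range (2 ^ K), (cR s (SE F τ) ⌊mn (fun k => od s k (r : ℤ)) K * N⌋₊ (2 ^ K) (r : ℤ) : ℝ)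
        - kap K * (δ * Phi x) * N| ≤ ε * N := by
  have hq : 0 < 2 ^ K := by positivity
  have hqR : (0 : ℝ) < 2 ^ K := by positivity
  obtain ⟨N1, H1⟩ := cP_unif hs hq (show 0 < ε / 3 / 2 ^ K by positivity) (F.sup Int.natAbs)
  obtain ⟨κ', hκ', H2⟩ := fix_law (P := Ev s F) (fun τ τ' n h hE => Ev_mono τ τ' n h hE) sd_pos
    (F := fun x => δ * Phi x) (continuous_const.mul Phi_continuous) law x (show 0 < ε / 3 by positivity) 1
  obtain ⟨N3, hN3⟩ := exists_nat_ge (3 * |δ * Phi x| / ε)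
  refine ⟨κ', hκ', ?_⟩
  filter_upwards [H2, eventually_ge_atTop N1, eventually_ge_atTop N3] with N h2 hN1 hN3' τ hτ
  have hN0 : (0 : ℝ) ≤ N := Nat.cast_nonneg N
  have hN3R : (N3 : ℝ) ≤ N := by exact_mod_cast hN3'
  set m : ℕ → ℝ := fun r => mn (fun k => od s k (r : ℤ)) K with hm
  have hFW : ∀ z ∈ F, |z| ≤ (F.sup Int.natAbs : ℕ) := by
    intro z hz
    rw [Pool.Agent.H623.TG.abs_nat]
    exact_mod_cast Finset.le_sup (f := Int.natAbs) hz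
  have hone : ∀ r ∈ range (2 ^ K), |(cR s (SE F τ) ⌊m r * N⌋₊ (2 ^ K) (r : ℤ) : ℝ) - (δ * Phi x) * (m r * N) / 2 ^ K| ≤
      ε / 3 / 2 ^ K * N + ε / 3 * N / 2 ^ K + |δ * Phi x| / 2 ^ K := by
    intro r hr
    have hm0 : 0 < m r := mn_pos _ _
    have hm1 : m r ≤ 1 := mn_le_one _ _
    have h3 : (⌊m r * N⌋₊ : ℝ) ≤ m r * N := Nat.floor_le (by positivity)
    have h4 : m r * N < ⌊m r * N⌋₊ + 1 := Nat.lt_floor_add_one _
    have h5 : ⌊m r * N⌋₊ ≤ N := by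
      have : (⌊m r * N⌋₊ : ℝ) ≤ N := by nlinarith
      exact_mod_cast this
    have h6 := H1 F hFW τ N hN1 _ h5 r (mem_range.1 hr)
    rw [cP_cnt] at h6
    push_cast at h6
    have h7 := h2 τ hτ ⌊m r * N⌋₊ (by rw [one_mul]; exact h5)
    rw [cR_cP s F τ _ (mem_range.1 hr)]
    have h8 : |cnt (Ev s F τ) ⌊m r * N⌋₊ / 2 ^ K - δ * Phi x * ⌊m r * N⌋₊ / 2 ^ K| ≤ ε / 3 * N / 2 ^ K := by
      rw [← sub_div, abs_div, abs_of_pos hqR]
      exact div_le_div_of_nonneg_right h7 hqR.le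
    have h9 : |δ * Phi x * ⌊m r * N⌋₊ / 2 ^ K - δ * Phi x * (m r * N) / 2 ^ K| ≤ |δ * Phi x| / 2 ^ K := by
      rw [← sub_div, abs_div, abs_of_pos hqR]
      apply div_le_div_of_nonneg_right _ hqR.le
      rw [← mul_sub, abs_mul]
      have : |(⌊m r * N⌋₊ : ℝ) - m r * N| ≤ 1 := by rw [abs_le]; constructor <;> linarith
      nlinarith [abs_nonneg (δ * Phi x)]
    calc _ = |((cP (Ev s F τ) ⌊m r * N⌋₊ (2 ^ K) r : ℝ) - cnt (Ev s F τ) ⌊m r * N⌋₊ / 2 ^ K)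
          + ((cnt (Ev s F τ) ⌊m r * N⌋₊ / 2 ^ K - δ * Phi x * ⌊m r * N⌋₊ / 2 ^ K)
          + (δ * Phi x * ⌊m r * N⌋₊ / 2 ^ K - δ * Phi x * (m r * N) / 2 ^ K))| := by ring_nf
      _ ≤ _ := (abs_add_le _ _).trans (by
        have := abs_add_le (cnt (Ev s F τ) ⌊m r * N⌋₊ / 2 ^ K - δ * Phi x * ⌊m r * N⌋₊ / 2 ^ K)
          (δ * Phi x * ⌊m r * N⌋₊ / 2 ^ K - δ * Phi x * (m r * N) / 2 ^ K)
        linarith)
  have hsum : ∑ r ∈ range (2 ^ K), (δ * Phi x) * (m r * N) / 2 ^ K = kap K * (δ * Phi x) * N := by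
    rw [kap_res (d := s) (by rcases hs with rfl | rfl <;> norm_num), ← sum_div, ← mul_sum, ← sum_mul]
    ring
  rw [← hsum, ← sum_sub_distrib]
  refine (abs_sum_le_sum_abs _ _).trans ((sum_le_sum hone).trans ?_)
  rw [sum_const, card_range, nsmul_eq_mul]
  push_cast
  have e : (2 : ℝ) ^ K * (ε / 3 / 2 ^ K * N + ε / 3 * N / 2 ^ K + |δ * Phi x| / 2 ^ K) = 2 * (ε / 3) * N + |δ * Phi x| := by
    field_simp
    ring
  rw [e]
  have h1 : |δ * Phi x| ≤ ε / 3 * N := by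
    rw [div_le_iff₀ hε] at hN3
    have := mul_le_mul_of_nonneg_right hN3R hε.le
    linarith
  linarith

/-- MAIN COUNT: the law of the hitting time on the captured share -/
theorem main_law {s : ℤ} (hs : s = 1 ∨ s = -1) {κ : ℝ} (hκ : Tendsto kap atTop (𝓝 κ)) {ε : ℝ} (hε : 0 < ε) :
    ∃ Y0 : ℝ, 2 ≤ Y0 ∧ ∀ Y : ℝ, Y0 ≤ Y → ∀ (F : Finset ℤ) (δ : ℝ), 0 ≤ δ → δ ≤ 1 →
      (∀ x : ℝ, Dn (fun n => Ev s F (thr al sd x (Real.log n)) n) (δ * Phi x)) → ∀ x : ℝ,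
      ∃ κ' : ℝ, 0 < κ' ∧ ∀ᶠ N : ℕ in atTop, ∀ τ : ℝ,
        |τ - thr al sd x (Real.log N)| ≤ κ' * Real.sqrt (Real.log N) →
        |(cL s (SE F τ) N Y : ℝ) - κ * (δ * Phi x) * N| ≤ ε * N := by
  obtain ⟨K0, Y0, hY0, N0, H⟩ := exc hs (show 0 < ε / 4 by positivity)
  obtain ⟨K1, hK1⟩ := Metric.tendsto_atTop.1 hκ (ε / 4) (by positivity)
  set K := max K0 K1 with hK
  have hK2 := hK1 K (le_max_right _ _)
  rw [Real.dist_eq] at hK2
  refine ⟨Y0, hY0, fun Y hY F δ hδ0 hδ1 law x => ?_⟩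
  obtain ⟨κ', hκ', H1⟩ := cR_sum' hs K law x (show 0 < ε / 4 by positivity)
  obtain ⟨N2, hN2⟩ := exists_nat_ge (4 * (2 ^ K * (Y + 1) + 2 ^ K * (2 ^ K + 1)) / ε)
  obtain ⟨N3, hN3⟩ := exists_nat_ge (2 * Y)
  refine ⟨κ', hκ', ?_⟩
  filter_upwards [H1, eventually_ge_atTop (max N0 (max (max N2 N3) 1))] with N h3' hN τ hτ
  have c0 : N0 ≤ N := (le_max_left _ _).trans hN
  have c2 : N2 ≤ N := (le_max_left _ _).trans ((le_max_left _ _).trans ((le_max_right _ _).trans hN))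
  have c3 : N3 ≤ N := (le_max_right _ _).trans ((le_max_left _ _).trans ((le_max_right _ _).trans hN))
  have c4 : 1 ≤ N := (le_max_right _ _).trans ((le_max_right _ _).trans hN)
  have hYY : 2 ≤ Y := hY0.trans hY
  have hN2' : (N2 : ℝ) ≤ N := by exact_mod_cast c2
  have hN3' : (N3 : ℝ) ≤ N := by exact_mod_cast c3
  obtain ⟨E, hE1, hE2⟩ := H K (le_max_left _ _) Y hY N c0
  have h1 := cL_upper hs K c4 (by linarith : (0 : ℝ) ≤ Y) (SE F τ)
  have h2 := cL_lower hs K c4 (hN3.trans hN3') (SE F τ) hE2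
  have h3 := h3' τ hτ
  rw [sum_add_distrib, sum_const, card_range, nsmul_eq_mul] at h1
  push_cast at h1
  set Q := ∑ r ∈ range (2 ^ K), (cR s (SE F τ) ⌊mn (fun k => od s k (r : ℤ)) K * N⌋₊ (2 ^ K) (r : ℤ) : ℝ) with hQ
  have h4 : 2 ^ K * (Y + 1) + 2 ^ K * (2 ^ K + 1) ≤ ε / 4 * N := by
    rw [div_le_iff₀ hε] at hN2
    nlinarith
  obtain ⟨p0, p1⟩ := phi01 x
  have hd0 : 0 ≤ δ * Phi x := mul_nonneg hδ0 p0
  have hd1 : δ * Phi x ≤ 1 := by nlinarith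
  have h5 : |kap K * (δ * Phi x) * N - κ * (δ * Phi x) * N| ≤ ε / 4 * N := by
    have e : kap K * (δ * Phi x) * N - κ * (δ * Phi x) * N = (kap K - κ) * ((δ * Phi x) * N) := by ring
    have hN0 : (0 : ℝ) ≤ N := Nat.cast_nonneg N
    rw [e, abs_mul, abs_of_nonneg (by positivity : 0 ≤ (δ * Phi x) * N)]
    have : (δ * Phi x) * (N : ℝ) ≤ N := by nlinarith
    exact mul_le_mul hK2.le this (by positivity) (by positivity)
  have h6 : (0 : ℝ) ≤ 2 ^ K * (Y + 1) := by positivity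
  have h7 : (0 : ℝ) ≤ 2 ^ K * (2 ^ K + 1) := by positivity
  rw [abs_le] at h3 h5 ⊢
  constructor <;> linarith

end Pool.Agent.H623.DG
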