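import Pool.Agent.H623.DG.B
import Pool.Graph.R_seed8.Results.MP_d02c56_nt.PairsMeetLow

/-! Distances in the truncated graph, part C: walks. -/

set_option autoImplicit false

namespace Pool.Agent.H623.DG

open Finset Filter Topology
open Pool.Agent.H623.TG (C Edge Comp Mt mem_Comp C_side_iter abs_side Cls Cls_trans Cls_symm Cls_eq Rch ret_bdd_all Mt_large
  abs_nat Mt_Cls)

/-- the graph -/
def Gr (N : ℕ) : SimpleGraph ℤ := SimpleGraph.fromRel (Edge N)

theorem walk_path {N : ℕ} {x : ℤ} : ∀ i : ℕ, (∀ a ≤ i, |C^[a] x| ≤ N) → ∃ w : (Gr N).Walk x (C^[i] x), w.length ≤ i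
  | 0, _ => ⟨SimpleGraph.Walk.nil, le_rfl⟩
  | i + 1, h => by
    obtain ⟨w, hw⟩ := walk_path i fun a ha => h a (by omega)
    have hC : C^[i + 1] x = C (C^[i] x) := Function.iterate_succ_apply' _ _ _
    rw [hC]
    by_cases he : C^[i] x = C (C^[i] x)
    · exact ⟨w.copy rfl he, by rw [SimpleGraph.Walk.length_copy]; omega⟩
    · have hadj : (Gr N).Adj (C^[i] x) (C (C^[i] x)) := by
        unfold Gr
        rw [SimpleGraph.fromRel_adj]
        exact ⟨he, Or.inl ⟨h i (by omega), by rw [← hC]; exact h (i + 1) le_rfl, rfl⟩⟩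
      exact ⟨w.concat hadj, by rw [SimpleGraph.Walk.length_concat]; omega⟩

theorem adj_C {N : ℕ} {x y : ℤ} (h : (Gr N).Adj x y) : y = C x ∨ x = C y := by
  unfold Gr at h
  rw [SimpleGraph.fromRel_adj] at h
  rcases h.2 with h | h
  · exact Or.inl h.2.2
  · exact Or.inr h.2.2

theorem cut {N : ℕ} {v : ℤ} : ∀ {x y : ℤ} (w : (Gr N).Walk x y), (∃ k, C^[k] x = v) → (∀ k, C^[k] y ≠ v) → v ∈ w.support
  | _, _, SimpleGraph.Walk.nil, h1, h2 => by
    obtain ⟨k, hk⟩ := h1
    exact absurd hk (h2 k)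
  | _, _, SimpleGraph.Walk.cons (v := u) h p, h1, h2 => by
    rw [SimpleGraph.Walk.support_cons]
    by_cases hu : ∃ k, C^[k] u = v
    · exact List.mem_cons_of_mem _ (cut p hu h2)
    · push Not at hu
      obtain ⟨k, hk⟩ := h1
      rcases adj_C h with h3 | h3
      · rcases k with _ | k
        · rw [Function.iterate_zero, id] at hk
          rw [hk]
          exact List.mem_cons_self
        · rw [Function.iterate_succ_apply, ← h3] at hk
          exact absurd hk (hu k)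
      · rw [h3, ← Function.iterate_succ_apply] at hk
        exact absurd hk (hu (k + 1))

theorem walk_lower {N : ℕ} {x y : ℤ} (w : (Gr N).Walk x y) {t u : ℕ}
    (h1 : ∀ i < t, ∀ j, C^[j] y ≠ C^[i] x) (h2 : ∀ j < u, ∀ i, C^[i] x ≠ C^[j] y)
    (h3 : Set.InjOn (fun i => C^[i] x) (Set.Iio t)) (h4 : Set.InjOn (fun j => C^[j] y) (Set.Iio u)) :
    t + u ≤ w.length + 1 := by
  classical
  set A := (range t).image (fun i => C^[i] x) with hA
  set B := (range u).image (fun j => C^[j] y) with hB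
  have cA : A.card = t := by
    rw [hA, card_image_of_injOn, card_range]
    intro a ha b hb hab
    rw [coe_range] at ha hb
    exact h3 ha hb hab
  have cB : B.card = u := by
    rw [hB, card_image_of_injOn, card_range]
    intro a ha b hb hab
    rw [coe_range] at ha hb
    exact h4 ha hb hab
  have hd : Disjoint A B := by
    rw [disjoint_left]
    intro z hz hz'
    rw [hA, mem_image] at hz
    rw [hB, mem_image] at hz'
    obtain ⟨i, hi, rfl⟩ := hz
    obtain ⟨j, _, hj⟩ := hz'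
    exact h1 i (mem_range.1 hi) j hj
  have hsub : A ∪ B ⊆ w.support.toFinset := by
    intro z hz
    rw [List.mem_toFinset]
    rw [mem_union, hA, hB, mem_image, mem_image] at hz
    rcases hz with ⟨i, hi, rfl⟩ | ⟨j, hj, rfl⟩
    · exact cut w ⟨i, rfl⟩ (h1 i (mem_range.1 hi))
    · have := cut w.reverse ⟨j, rfl⟩ (h2 j (mem_range.1 hj))
      rw [SimpleGraph.Walk.support_reverse, List.mem_reverse] at this
      exact this
  have h5 := card_le_card hsub
  rw [card_union_of_disjoint hd, cA, cB] at h5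
  have h6 := List.toFinset_card_le w.support
  rw [SimpleGraph.Walk.length_support] at h6
  omega

/-- `t` is the first time at which the trajectory of `x` is in `[-W, W]` -/
def FP (W : ℕ) (x : ℤ) (t : ℕ) : Prop := |C^[t] x| ≤ W ∧ ∀ i < t, (W : ℤ) < |C^[i] x|

theorem FP_ex {W : ℕ} {x : ℤ} (h : ∃ k, |C^[k] x| ≤ W) : ∃ t, FP W x t := by
  classical
  exact ⟨Nat.find h, Nat.find_spec h, fun i hi => by
    have := Nat.find_min h hi
    exact not_le.1 this⟩

theorem FP_le {W : ℕ} {x : ℤ} {t k : ℕ} (h : FP W x t) (hk : |C^[k] x| ≤ W) : t ≤ k := by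
  by_contra hcon
  push Not at hcon
  exact absurd hk (not_le.2 (h.2 k hcon))

theorem FP_unique {W : ℕ} {x : ℤ} {t t' : ℕ} (h : FP W x t) (h' : FP W x t') : t = t' :=
  le_antisymm (FP_le h h'.1) (FP_le h' h.1)

theorem FP_inj {W : ℕ} {x : ℤ} {t : ℕ} (h : FP W x t) : Set.InjOn (fun i => C^[i] x) (Set.Iio t) := by
  have key : ∀ a b : ℕ, a < b → b < t → C^[a] x ≠ C^[b] x := by
    intro a b hab hb he
    -- the trajectory is periodic from `a` on
    have hper : ∀ m : ℕ, ∃ c : ℕ, c < b ∧ C^[m] x = C^[c] x := by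
      intro m
      induction m using Nat.strong_induction_on with
      | _ m ih =>
        rcases Nat.lt_or_ge m b with h1 | h1
        · exact ⟨m, h1, rfl⟩
        · obtain ⟨e, rfl⟩ := Nat.exists_eq_add_of_le h1
          have e1 : C^[b + e] x = C^[a + e] x := by
            rw [add_comm b e, add_comm a e, Function.iterate_add_apply, Function.iterate_add_apply, ← he]
          obtain ⟨c, hc1, hc2⟩ := ih (a + e) (by omega)
          exact ⟨c, hc1, e1.trans hc2⟩
    obtain ⟨c, hc1, hc2⟩ := hper t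
    have h1 := h.1
    rw [hc2] at h1
    exact absurd h1 (not_le.2 (h.2 c (by omega)))
  intro a ha b hb hab
  by_contra hne
  rcases Nat.lt_or_gt_of_ne hne with h1 | h1
  · exact key a b h1 hb hab
  · exact key b a h1 ha hab.symm

theorem FP_comp {W W' : ℕ} (hW : W ≤ W') {x : ℤ} {t u : ℕ} (h : FP W' x t) (h' : FP W (C^[t] x) u) : FP W x (t + u) := by
  have hWZ : (W : ℤ) ≤ W' := by exact_mod_cast hW
  refine ⟨?_, fun i hi => ?_⟩
  · rw [add_comm, Function.iterate_add_apply]; exact h'.1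
  · rcases Nat.lt_or_ge i t with h1 | h1
    · exact lt_of_le_of_lt hWZ (h.2 i h1)
    · obtain ⟨e, rfl⟩ := Nat.exists_eq_add_of_le h1
      rw [add_comm, Function.iterate_add_apply]
      exact h'.2 e (by omega)

/-- bounded walks between small integers of the same class -/
theorem small_walks (W : ℕ) : ∃ B N0 : ℕ, ∀ N : ℕ, N0 ≤ N → ∀ z w : ℤ, |z| ≤ W → |w| ≤ W → w ∈ Cls z →
    ∃ p : (Gr N).Walk z w, p.length ≤ B := by
  have h : ∀ p : ℤ × ℤ, ∃ n b : ℕ, p.2 ∈ Cls p.1 → ∀ N ≥ n, ∃ q : (Gr N).Walk p.1 p.2, q.length ≤ b := by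
    intro p
    by_cases h : p.2 ∈ Cls p.1
    · obtain ⟨n, hn⟩ := Mt_large h
      obtain ⟨i, j, h0⟩ := h
      obtain ⟨n1, hn1⟩ : ∃ n1 : ℕ, ∀ a ≤ i, |C^[a] p.1| ≤ n1 := by
        refine ⟨(range (i + 1)).sup (fun a => (C^[a] p.1).natAbs), fun a ha => ?_⟩
        rw [abs_nat]
        exact_mod_cast Finset.le_sup (f := fun a => (C^[a] p.1).natAbs) (mem_range.2 (by omega : a < i + 1))
      obtain ⟨n2, hn2⟩ : ∃ n2 : ℕ, ∀ a ≤ j, |C^[a] p.2| ≤ n2 := by
        refine ⟨(range (j + 1)).sup (fun a => (C^[a] p.2).natAbs), fun a ha => ?_⟩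
        rw [abs_nat]
        exact_mod_cast Finset.le_sup (f := fun a => (C^[a] p.2).natAbs) (mem_range.2 (by omega : a < j + 1))
      refine ⟨max n1 n2, i + j, fun _ N hN => ?_⟩
      obtain ⟨w1, hw1⟩ := walk_path (N := N) (x := p.1) i (fun a ha => (hn1 a ha).trans (by
        exact_mod_cast (le_max_left n1 n2).trans hN))
      obtain ⟨w2, hw2⟩ := walk_path (N := N) (x := p.2) j (fun a ha => (hn2 a ha).trans (by
        exact_mod_cast (le_max_right n1 n2).trans hN))
      refine ⟨(w1.copy rfl h0).append w2.reverse, ?_⟩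
      rw [SimpleGraph.Walk.length_append, SimpleGraph.Walk.length_reverse, SimpleGraph.Walk.length_copy]
      omega
    · exact ⟨0, 0, fun h' => absurd h' h⟩
  choose n b hn using h
  refine ⟨(Icc (-(W : ℤ)) W ×ˢ Icc (-(W : ℤ)) W).sup b, (Icc (-(W : ℤ)) W ×ˢ Icc (-(W : ℤ)) W).sup n,
    fun N hN z w hz hw h => ?_⟩
  rw [abs_le] at hz hw
  have hmem : (z, w) ∈ Icc (-(W : ℤ)) W ×ˢ Icc (-(W : ℤ)) W := mem_product.2 ⟨mem_Icc.2 hz, mem_Icc.2 hw⟩
  obtain ⟨q, hq⟩ := hn (z, w) h N ((Finset.le_sup (f := n) hmem).trans hN)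
  exact ⟨q, hq.trans (Finset.le_sup (f := b) hmem)⟩

/-- bounded passage times of the small integers -/
theorem small_FP (W W' : ℕ) : ∃ B : ℕ, ∀ z : ℤ, |z| ≤ W' → (∃ k, |C^[k] z| ≤ W) → ∃ u ≤ B, FP W z u := by
  have h : ∀ z : ℤ, ∃ u : ℕ, (∃ k, |C^[k] z| ≤ W) → FP W z u := by
    intro z
    by_cases h : ∃ k, |C^[k] z| ≤ W
    · obtain ⟨t, ht⟩ := FP_ex h
      exact ⟨t, fun _ => ht⟩
    · exact ⟨0, fun h' => absurd h' h⟩
  choose u hu using h
  refine ⟨(Icc (-(W' : ℤ)) W').sup u, fun z hz h => ⟨u z, ?_, hu z h⟩⟩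
  rw [abs_le] at hz
  exact Finset.le_sup (f := u) (mem_Icc.2 hz)

/-- the trajectories meet above `Y`, before they take a smaller value -/
def MA (Y : ℕ) (x y : ℤ) : Prop := ∃ k l : ℕ, C^[k] x = C^[l] y ∧ (∀ j ≤ k, (Y : ℤ) ≤ |C^[j] x|) ∧ ∀ j ≤ l, (Y : ℤ) ≤ |C^[j] y|

theorem C_lib (x : ℤ) (j : ℕ) : Pool.Agent.Results.MP_d02c56_nt.PairsMeetLow.C^[j] x = C^[j] x := by
  rw [Pool.Agent.Results.MP_d02c56_nt.PairsMeetLow.iter_eq]
  have := C_side_iter (s := 1) (Or.inl rfl) x j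
  rw [one_mul, one_mul] at this
  exact this.symm

theorem MA_iff {Y : ℕ} {x y : ℤ} : MA Y x y ↔ Pool.Agent.Results.MP_d02c56_nt.PairsMeetLow.MeetAbove (Y : ℝ) x y := by
  unfold MA Pool.Agent.Results.MP_d02c56_nt.PairsMeetLow.MeetAbove
  refine exists_congr fun k => exists_congr fun l => ?_
  simp only [C_lib]
  have e2 : ∀ (z : ℤ) (j : ℕ), ((Y : ℝ) ≤ |((C^[j] z : ℤ) : ℝ)|) ↔ (Y : ℤ) ≤ |C^[j] z| := by
    intro z j
    rw [← Int.cast_abs]
    exact_mod_cast Iff.rfl
  simp only [e2]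

end Pool.Agent.H623.DG
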