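import Pool.Agent.H623.DG.Cc

/-! Distances in the truncated graph, part D: the distances between typical vertices. -/

set_option autoImplicit false

namespace Pool.Agent.H623.DG

open Finset Filter Topology
open Pool.Agent.H623.TG (C Edge Comp Mt mem_Comp Cls Cls_trans Cls_symm Cls_eq Rch ret_bdd_all Mt_large abs_nat Mt_Cls)

/-- `x` comes to `[-W, W]` for the first time at the time `t`, inside `[-N, N]`, and it comes to `[-Y, Y]` -/
def Typ (N Y W : ℕ) (x : ℤ) (t : ℕ) : Prop :=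
  (∀ a ≤ t, |C^[a] x| ≤ N) ∧ FP W x t ∧ ∃ k, |C^[k] x| ≤ Y

theorem cls_iter (x : ℤ) (t : ℕ) : C^[t] x ∈ Cls x := ⟨t, 0, rfl⟩

/-- THE CENTER -/
theorem center (Y : ℕ) : ∃ W : ℕ, Y ≤ W ∧ (∀ z : ℤ, |z| ≤ Y → ∀ i : ℕ, (∃ j ≥ i, |C^[j] z| ≤ Y) → |C^[i] z| ≤ W) ∧
    ∃ B N0 : ℕ, ∀ N : ℕ, N0 ≤ N →
    (∀ (x a : ℤ) (t : ℕ), |a| ≤ Y → a ∈ Cls x → Typ N Y W x t →
      (∃ p : (Gr N).Walk x a, p.length ≤ t + B) ∧ ∀ p : (Gr N).Walk x a, t ≤ p.length + B) ∧
    (∀ (x y : ℤ) (t u : ℕ), y ∈ Cls x → Typ N Y W x t → Typ N Y W y u → ¬ MA W x y →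
      (∃ p : (Gr N).Walk x y, p.length ≤ t + u + B) ∧ ∀ p : (Gr N).Walk x y, t + u ≤ p.length + B) := by
  obtain ⟨W, hYW, hW⟩ := ret_bdd_all Y
  obtain ⟨W2, hWW2, hW2⟩ := ret_bdd_all W
  obtain ⟨B1, N0, H1⟩ := small_walks W
  obtain ⟨B2, H2⟩ := small_FP W W2
  have hYWz : (Y : ℤ) ≤ W := by exact_mod_cast hYW
  have hWW2z : (W : ℤ) ≤ W2 := by exact_mod_cast hWW2
  refine ⟨W, hYW, hW, B1 + 2 * B2 + 1, N0, fun N hN => ⟨?_, ?_⟩⟩
  · rintro x a t ha hax ⟨h1, h2, k, hk⟩
    constructor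
    · obtain ⟨p, hp⟩ := walk_path t h1
      obtain ⟨p', hp'⟩ := H1 N hN (C^[t] x) a h2.1 (ha.trans hYWz) (Cls_trans (Cls_symm (cls_iter x t)) hax)
      refine ⟨p.append p', ?_⟩
      rw [SimpleGraph.Walk.length_append]
      omega
    · intro p
      have hkt : t ≤ k := FP_le h2 (hk.trans hYWz)
      have h3 := walk_lower p (t := t) (u := 0) (fun i hi j he => by
        have h4 := hW a ha j ⟨(k - i) + j, by omega, by
          rw [Function.iterate_add_apply, he, ← Function.iterate_add_apply, Nat.sub_add_cancel (by omega)]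
          exact hk⟩
        rw [he] at h4
        exact absurd h4 (not_le.2 (h2.2 i hi))) (fun j hj => absurd hj (Nat.not_lt_zero _)) (FP_inj h2)
        (fun a ha => absurd ha (Nat.not_lt_zero _))
      omega
  · rintro x y t u hxy ⟨h1, h2, k, hk⟩ ⟨g1, g2, l, hl⟩ hMA
    constructor
    · obtain ⟨p, hp⟩ := walk_path t h1
      obtain ⟨p', hp'⟩ := walk_path u g1
      obtain ⟨q, hq⟩ := H1 N hN (C^[t] x) (C^[u] y) h2.1 g2.1
        (Cls_trans (Cls_symm (cls_iter x t)) (Cls_trans hxy (cls_iter y u)))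
      refine ⟨(p.append q).append p'.reverse, ?_⟩
      rw [SimpleGraph.Walk.length_append, SimpleGraph.Walk.length_append, SimpleGraph.Walk.length_reverse]
      omega
    · intro p
      -- no term of the trajectory of `x` before it comes to `[-W2, W2]` is on the trajectory of `y`
      have key : ∀ (x y : ℤ) (t : ℕ), FP W2 x t → (∃ k, |C^[k] x| ≤ Y) → ¬ MA W x y → ∀ i < t, ∀ j, C^[j] y ≠ C^[i] x := by
        rintro x y t ht ⟨k, hk⟩ hMA i hi j he
        have hkt : t ≤ k := FP_le ht (hk.trans (hYWz.trans hWW2z))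
        by_cases hc : ∃ j' ≤ j, |C^[j'] y| ≤ W
        · obtain ⟨j', hj', hz⟩ := hc
          have h3 := hW2 _ hz (j - j') ⟨(k - i) + (j - j'), by omega, by
            rw [← Function.iterate_add_apply, show k - i + (j - j') + j' = (k - i) + j by omega,
              Function.iterate_add_apply, he, ← Function.iterate_add_apply, Nat.sub_add_cancel (by omega)]
            exact hk.trans hYWz⟩
          rw [← Function.iterate_add_apply, Nat.sub_add_cancel hj', he] at h3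
          exact absurd h3 (not_le.2 (ht.2 i hi))
        · push Not at hc
          apply hMA
          exact ⟨i, j, he.symm, fun a ha => hWW2z.trans (ht.2 a (by omega)).le, fun b hb => (hc b hb).le⟩
      have hMA' : ¬ MA W y x := by
        rintro ⟨k, l, h3, h4, h5⟩
        exact hMA ⟨l, k, h3.symm, h5, h4⟩
      obtain ⟨t2, ht2⟩ := FP_ex (W := W2) (x := x) ⟨k, hk.trans (hYWz.trans hWW2z)⟩
      obtain ⟨u2, hu2⟩ := FP_ex (W := W2) (x := y) ⟨l, hl.trans (hYWz.trans hWW2z)⟩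
      have htk := FP_le ht2 (hk.trans (hYWz.trans hWW2z))
      have hul := FP_le hu2 (hl.trans (hYWz.trans hWW2z))
      obtain ⟨t3, ht3, ht3'⟩ := H2 (C^[t2] x) ht2.1 ⟨k - t2, by
        rw [← Function.iterate_add_apply, Nat.sub_add_cancel htk]; exact hk.trans hYWz⟩
      obtain ⟨u3, hu3, hu3'⟩ := H2 (C^[u2] y) hu2.1 ⟨l - u2, by
        rw [← Function.iterate_add_apply, Nat.sub_add_cancel hul]; exact hl.trans hYWz⟩
      have e1 := FP_unique h2 (FP_comp hWW2 ht2 ht3')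
      have e2 := FP_unique g2 (FP_comp hWW2 hu2 hu3')
      have h3 := walk_lower p (t := t2) (u := u2) (key x y t2 ht2 ⟨k, hk⟩ hMA) (key y x u2 hu2 ⟨l, hl⟩ hMA')
        (FP_inj ht2) (FP_inj hu2)
      omega

end Pool.Agent.H623.DG
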