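import Pool.Agent.H623.DG.D

/-! Distances in the truncated graph, part E: the law of the distances to a fixed vertex. -/

set_option autoImplicit false

namespace Pool.Agent.H623.DG

open Finset Filter Topology
open Pool.Agent.H499R2.CO (Tz)
open Pool.Agent.H499R2.ND (Dn cnt cnt_eq Phi Phi_continuous phi_cdf HD)
open Pool.Agent.W41 (cF cF_ncard s_mul)
open Pool.Agent.Y964.LW (thr fix_law)
open Pool.Agent.H623.TG (C Edge Comp Mt mem_Comp Cls Cls_trans Cls_symm Cls_eq Cls_self Cls_sign Rch ret_bdd_all Mt_large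
  abs_nat Mt_Cls Mt_of_eqv Mt_refl Mt_left Mt_symm low_iff bg_rch Bg kap cL cL_eq exc cF_mono cF_union cF_fin HasD T_is_C
  abs_side sign_side)

/-- a walk of length at most `r` -/
def Near (N : ℕ) (r : ℝ) (x y : ℤ) : Prop := ∃ p : (Gr N).Walk x y, (p.length : ℝ) ≤ r

theorem walk_eqv {N : ℕ} : ∀ {x y : ℤ} (_ : (Gr N).Walk x y), Relation.EqvGen (Edge N) x y
  | _, _, SimpleGraph.Walk.nil => Relation.EqvGen.refl _
  | _, _, SimpleGraph.Walk.cons h p => by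
    refine Relation.EqvGen.trans _ _ _ ?_ (walk_eqv p)
    unfold Gr at h
    rw [SimpleGraph.fromRel_adj] at h
    rcases h.2 with h | h
    · exact Relation.EqvGen.rel _ _ h
    · exact Relation.EqvGen.symm _ _ (Relation.EqvGen.rel _ _ h)

theorem walk_Mt {N : ℕ} {x y : ℤ} (hx : |x| ≤ N) (p : (Gr N).Walk x y) : Mt N x y := by
  rcases Mt_of_eqv (walk_eqv p) with rfl | h
  · exact Mt_refl hx
  · exact h

theorem Mt_walk {N : ℕ} {x y : ℤ} (h : Mt N x y) : Nonempty ((Gr N).Walk x y) := by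
  obtain ⟨i, j, h1, h2, h3⟩ := h
  obtain ⟨p, _⟩ := walk_path i h2
  obtain ⟨q, _⟩ := walk_path j h3
  exact ⟨(p.copy rfl h1).append q.reverse⟩

open Classical in
/-- the elements of `S` in `[-W, W]` whose trajectory comes to `[-Y, Y]` -/
noncomputable def FS (S : Set ℤ) (Y W : ℕ) : Finset ℤ :=
  (Icc (-(W : ℤ)) W).filter (fun z => z ∈ S ∧ ∃ k, |C^[k] z| ≤ Y)

theorem mem_FS {S : Set ℤ} {Y W : ℕ} {z : ℤ} : z ∈ FS S Y W ↔ |z| ≤ W ∧ z ∈ S ∧ ∃ k, |C^[k] z| ≤ Y := by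
  classical
  unfold FS
  rw [mem_filter, mem_Icc, abs_le]

/-- the trajectory of `x` hits the set within `τ` steps -/
theorem SE_iff {S : Set ℤ} (hS : Pool.Agent.H623.TG.Invt S) {Y W : ℕ} (hYW : Y ≤ W) {τ : ℝ} {x : ℤ} :
    x ∈ SE (FS S Y W) τ ↔ x ∈ S ∧ (∃ k, |C^[k] x| ≤ Y) ∧ ∃ t : ℕ, FP W x t ∧ (t : ℝ) ≤ τ := by
  have hinv : ∀ (k : ℕ) (x : ℤ), x ∈ S ↔ C^[k] x ∈ S := by
    intro k
    induction k with
    | zero => intro x; exact Iff.rfl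
    | succ k ih => intro x; rw [Function.iterate_succ_apply]; exact (hS x).trans (ih (C x))
  have hYWz : (Y : ℤ) ≤ W := by exact_mod_cast hYW
  constructor
  · rintro ⟨i, hi, h⟩
    rw [mem_FS] at h
    obtain ⟨h1, h2, k, hk⟩ := h
    rw [← Function.iterate_add_apply] at hk
    obtain ⟨t, ht⟩ := FP_ex (W := W) (x := x) ⟨i, h1⟩
    refine ⟨(hinv i x).2 h2, ⟨k + i, hk⟩, t, ht, ?_⟩
    have : (t : ℝ) ≤ i := by exact_mod_cast FP_le ht h1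
    linarith
  · rintro ⟨h1, ⟨k, hk⟩, t, ht, htau⟩
    refine ⟨t, htau, ?_⟩
    rw [mem_FS]
    refine ⟨ht.1, (hinv t x).1 h1, k - t, ?_⟩
    rw [← Function.iterate_add_apply, Nat.sub_add_cancel (FP_le ht (hk.trans hYWz))]
    exact hk

/-- almost all trajectories come to `[-Y, Y]` -/
theorem reach {s : ℤ} (hs : s = 1 ∨ s = -1) {ε : ℝ} (hε : 0 < ε) : ∃ Y0 : ℕ, ∀ Y : ℕ, Y0 ≤ Y → ∃ N0 : ℕ, ∀ N : ℕ, N0 ≤ N →
    (cF s {x | ¬ ∃ k, |C^[k] x| ≤ Y} N : ℝ) ≤ ε * N := by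
  obtain ⟨K, Yb, _, Nb, Hb⟩ := exc hs hε
  obtain ⟨Y0, hY0⟩ := exists_nat_ge Yb
  refine ⟨Y0, fun Y hY => ⟨Nb, fun N hN => ?_⟩⟩
  have hYR : (Y0 : ℝ) ≤ Y := by exact_mod_cast hY
  obtain ⟨E, hE1, hE2⟩ := Hb K le_rfl ((Y : ℝ) + 1) (by linarith) N hN
  refine le_trans ?_ hE1
  have h : cF s {x | ¬ ∃ k, |C^[k] x| ≤ Y} N ≤ E.card := by
    refine le_trans (cF_mono (S' := {x | s * x ∈ E}) ?_) (cF_fin hs E N)
    intro n hn1 hnN hn
    show s * (s * (n : ℤ)) ∈ E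
    rw [s_mul hs]
    by_contra hnE
    apply hn
    obtain ⟨t, ht, _⟩ := hE2 n (by exact_mod_cast hn1) (by exact_mod_cast hnN) hnE
    obtain ⟨i, _, hi⟩ := T_is_C hs (n : ℤ) t
    refine ⟨i, ?_⟩
    rw [abs_side hs (by exact_mod_cast hn1), hi]
    have : (((Tz s)^[t] (n : ℤ) : ℤ) : ℝ) < ((Y + 1 : ℤ) : ℝ) := by push_cast; exact_mod_cast ht
    have h3 : (Tz s)^[t] (n : ℤ) < Y + 1 := by exact_mod_cast this
    omega
  exact_mod_cast h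

theorem cnt_cF (s : ℤ) (S : Set ℤ) (N : ℕ) : cnt (fun n : ℕ => s * (n : ℤ) ∈ S) N = cF s S N := by
  classical
  rw [cnt_eq]
  unfold cF
  norm_cast

/-- the density of the elements of `S` whose trajectory comes to `[-Y, Y]` -/
theorem dens_F {s : ℤ} (hs : s = 1 ∨ s = -1) {ε : ℝ} (hε : 0 < ε) : ∃ Y0 : ℕ, ∀ Y W : ℕ, Y0 ≤ Y → Y ≤ W →
    ∀ S : Set ℤ, Pool.Agent.H623.TG.Invt S → ∀ δ δF : ℝ, HD s S δ →
      Dn (fun n : ℕ => ∃ t : ℕ, C^[t] (s * n) ∈ FS S Y W) δF → δ - ε ≤ δF ∧ δF ≤ δ := by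
  obtain ⟨Y0, H⟩ := reach hs hε
  refine ⟨Y0, fun Y W hY hYW S hS δ δF hδ hF => ?_⟩
  obtain ⟨N0, HN⟩ := H Y hY
  have hD : Tendsto (fun N : ℕ => (cF s S N : ℝ) / N) atTop (𝓝 δ) := by
    obtain ⟨δ', h1, h2⟩ := Pool.Agent.H623.TG.dens_ex hs hS
    have e : δ' = δ := Pool.Agent.H499R2.ND.HD_unique h1 hδ
    rw [← e]
    refine h2.congr fun N => ?_
    rw [cF_ncard hs]
  have hE : ∀ (n : ℕ), (∃ t : ℕ, C^[t] (s * (n : ℤ)) ∈ FS S Y W) ↔ (s * (n : ℤ) ∈ S ∧ ∃ k, |C^[k] (s * (n : ℤ))| ≤ Y) := by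
    intro n
    have h1 : (∃ t : ℕ, C^[t] (s * (n : ℤ)) ∈ FS S Y W) ↔ ∃ τ : ℝ, s * (n : ℤ) ∈ SE (FS S Y W) τ := by
      constructor
      · rintro ⟨t, ht⟩; exact ⟨t, t, le_rfl, ht⟩
      · rintro ⟨τ, i, _, h⟩; exact ⟨i, h⟩
    rw [h1]
    constructor
    · rintro ⟨τ, h⟩
      rw [SE_iff hS hYW] at h
      exact ⟨h.1, h.2.1⟩
    · rintro ⟨h2, k, hk⟩
      obtain ⟨t, ht⟩ := FP_ex (W := W) ⟨k, hk.trans (by exact_mod_cast hYW : (Y : ℤ) ≤ W)⟩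
      exact ⟨t, (SE_iff hS hYW).2 ⟨h2, ⟨k, hk⟩, t, ht, le_rfl⟩⟩
  have hcF : ∀ N : ℕ, cnt (fun n : ℕ => ∃ t : ℕ, C^[t] (s * n) ∈ FS S Y W) N
      = cF s (S ∩ {x | ∃ k, |C^[k] x| ≤ Y}) N := by
    intro N
    rw [← cnt_cF]
    unfold cnt
    congr 2
    ext n
    simp only [Set.mem_ofPred_eq, hE]
    exact Iff.rfl
  constructor
  · -- lower bound
    have h1 : Tendsto (fun N : ℕ => (cF s S N : ℝ) / N - ε) atTop (𝓝 (δ - ε)) := hD.sub_const ε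
    refine le_of_tendsto_of_tendsto h1 hF ?_
    filter_upwards [eventually_ge_atTop (max N0 1)] with N hN
    have hN1 : 1 ≤ N := (le_max_right _ _).trans hN
    have hNR : (0 : ℝ) < N := by exact_mod_cast hN1
    have h2 := HN N ((le_max_left _ _).trans hN)
    have h3 : cF s S N ≤ cF s (S ∩ {x | ∃ k, |C^[k] x| ≤ Y}) N + cF s {x | ¬ ∃ k, |C^[k] x| ≤ Y} N := by
      refine (cF_mono (S' := (S ∩ {x | ∃ k, |C^[k] x| ≤ Y}) ∪ {x | ¬ ∃ k, |C^[k] x| ≤ Y}) ?_).trans (cF_union _ _ _)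
      intro n _ _ hn
      by_cases h : ∃ k, |C^[k] (s * (n : ℤ))| ≤ Y
      · exact Or.inl ⟨hn, h⟩
      · exact Or.inr h
    have h4 : (cF s S N : ℝ) ≤ cF s (S ∩ {x | ∃ k, |C^[k] x| ≤ Y}) N + cF s {x | ¬ ∃ k, |C^[k] x| ≤ Y} N := by
      exact_mod_cast h3
    rw [hcF, le_div_iff₀ hNR, sub_mul, div_mul_cancel₀ _ hNR.ne']
    linarith
  · refine le_of_tendsto_of_tendsto hF hD ?_
    filter_upwards [eventually_ge_atTop 1] with N hN1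
    have hNR : (0 : ℝ) < N := by exact_mod_cast hN1
    rw [hcF]
    apply div_le_div_of_nonneg_right _ hNR.le
    have h5 : cF s (S ∩ {x | ∃ k, |C^[k] x| ≤ Y}) N ≤ cF s S N := cF_mono fun n _ _ h => h.1
    exact_mod_cast h5

end Pool.Agent.H623.DG
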