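import Pool.Agent.H623.DG.E

/-! Distances in the truncated graph, part F: the central limit theorem for the distance to a fixed vertex. -/

set_option autoImplicit false

namespace Pool.Agent.H623.DG

open Finset Filter Topology
open Pool.Agent.H499R2.CO (Tz)
open Pool.Agent.H499R2.ND (Dn cnt cnt_eq Phi Phi_continuous phi_cdf HD)
open Pool.Agent.W41 (cF cF_ncard s_mul)
open Pool.Agent.Y964.LW (thr fix_law)
open Pool.Agent.H623.TG (C Edge Comp Mt mem_Comp Cls Cls_trans Cls_symm Cls_eq Cls_self Cls_sign Cls_inv Rch ret_bdd_all Mt_large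
  abs_nat Mt_Cls Mt_of_eqv Mt_refl Mt_left Mt_symm low_iff bg_rch Bg kap cL cL_eq exc cF_mono cF_union cF_fin HasD T_is_C
  abs_side sign_side)

theorem near_ncard {s : ℤ} (hs : s = 1 ∨ s = -1) {a : ℤ} (ha : 0 < s * a) (N : ℕ) (τ : ℝ) :
    {x : ℤ | |x| ≤ N ∧ Near N τ x a}.ncard = cF s {x | Near N τ x a} N := by
  rw [← cF_ncard hs]
  congr 1
  ext x
  simp only [Set.mem_ofPred_eq]
  constructor
  · rintro ⟨h1, p, hp⟩
    have h2 := Mt_Cls (walk_Mt h1 p)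
    have h3 := Cls_sign hs ha (Cls_symm h2)
    refine ⟨h3, ?_, p, hp⟩
    rw [abs_le] at h1
    rcases hs with rfl | rfl <;> omega
  · rintro ⟨h1, h2, h3⟩
    refine ⟨?_, h3⟩
    rw [abs_le]
    rcases hs with rfl | rfl <;> constructor <;> omega

/-- typical vertices -/
theorem typ_of {N Y W : ℕ} (hYW : Y ≤ W) (hW : ∀ z : ℤ, |z| ≤ Y → ∀ i : ℕ, (∃ j ≥ i, |C^[j] z| ≤ Y) → |C^[i] z| ≤ W)
    {x a : ℤ} (ha : |a| ≤ Y) (hM : Mt N x a) (hr : ∃ k, |C^[k] x| ≤ Y) : ∃ t, Typ N Y W x t := by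
  have h1 : x ∈ Bg N Y := ⟨a, mem_Comp.2 hM, ha⟩
  obtain ⟨i, h2, h3⟩ := bg_rch hYW hW h1 hr
  have h4 : |C^[i] x| ≤ W := by
    have : ((|C^[i] x| : ℤ) : ℝ) < ((W + 1 : ℤ) : ℝ) := by push_cast; exact_mod_cast h2
    have h5 : |C^[i] x| < W + 1 := by exact_mod_cast this
    omega
  obtain ⟨t, ht⟩ := FP_ex (W := W) (x := x) ⟨i, h4⟩
  exact ⟨t, fun a ha' => h3 a (ha'.trans (FP_le ht h4)), ht, hr⟩

theorem rch_of {N Y W : ℕ} {x : ℤ} {t : ℕ} (h : Typ N Y W x t) : Rch N ((W : ℝ) + 1) x := by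
  refine ⟨t, ?_, h.1⟩
  have h2 : ((|C^[t] x| : ℤ) : ℝ) ≤ W := by exact_mod_cast h.2.1.1
  linarith

theorem sandwich {s : ℤ} (hs : s = 1 ∨ s = -1) {ε : ℝ} (hε : 0 < ε) : ∃ Y0 : ℕ, ∀ Y : ℕ, Y0 ≤ Y → ∃ W : ℕ, Y ≤ W ∧
    ∃ B N0 : ℕ, ∀ N : ℕ, N0 ≤ N → ∀ a : ℤ, 0 < s * a → |a| ≤ Y → ∀ τ : ℝ,
      (cL s (SE (FS (Cls a) Y W) (τ - B)) N ((W : ℝ) + 1) : ℝ) ≤ {x : ℤ | |x| ≤ N ∧ Near N τ x a}.ncard ∧
      ({x : ℤ | |x| ≤ N ∧ Near N τ x a}.ncard : ℝ) ≤ cL s (SE (FS (Cls a) Y W) (τ + B)) N ((W : ℝ) + 1) + ε * N := by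
  obtain ⟨Y0, H⟩ := reach hs hε
  refine ⟨Y0, fun Y hY => ?_⟩
  obtain ⟨N1, H1⟩ := H Y hY
  obtain ⟨W, hYW, hW, B, N0, H2⟩ := center Y
  refine ⟨W, hYW, B, max N0 N1, fun N hN a ha haY τ => ?_⟩
  obtain ⟨G1, -⟩ := H2 N ((le_max_left _ _).trans hN)
  have h1 := H1 N ((le_max_right _ _).trans hN)
  rw [near_ncard hs ha, cL_eq hs, cL_eq hs]
  constructor
  · have : cF s (SE (FS (Cls a) Y W) (τ - B) ∩ {x | Rch N ((W : ℝ) + 1) x}) N ≤ cF s {x | Near N τ x a} N := by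
      apply cF_mono
      rintro n hn1 hnN ⟨h2, i, h3, h4⟩
      rw [SE_iff (Cls_inv a) hYW] at h2
      obtain ⟨h5, h6, t, ht, htau⟩ := h2
      have h7 : |C^[i] (s * (n : ℤ))| ≤ W := by
        have : ((|C^[i] (s * (n : ℤ))| : ℤ) : ℝ) < ((W + 1 : ℤ) : ℝ) := by push_cast; exact_mod_cast h3
        have h5 : |C^[i] (s * (n : ℤ))| < W + 1 := by exact_mod_cast this
        omega
      obtain ⟨p, hp⟩ := (G1 (s * n) a t haY (Cls_symm h5) ⟨fun b hb => h4 b (hb.trans (FP_le ht h7)), ht, h6⟩).1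
      refine ⟨p, ?_⟩
      have : (p.length : ℝ) ≤ t + B := by exact_mod_cast hp
      linarith
    exact_mod_cast this
  · have : cF s {x | Near N τ x a} N ≤ cF s (SE (FS (Cls a) Y W) (τ + B) ∩ {x | Rch N ((W : ℝ) + 1) x}) N
        + cF s {x | ¬ ∃ k, |C^[k] x| ≤ Y} N := by
      refine (cF_mono (S' := (SE (FS (Cls a) Y W) (τ + B) ∩ {x | Rch N ((W : ℝ) + 1) x}) ∪
        {x | ¬ ∃ k, |C^[k] x| ≤ Y}) ?_).trans (cF_union _ _ _)
      rintro n hn1 hnN ⟨p, hp⟩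
      by_cases hr : ∃ k, |C^[k] (s * (n : ℤ))| ≤ Y
      · left
        have hx : |s * (n : ℤ)| ≤ N := by
          rw [abs_le]
          rcases hs with rfl | rfl <;> constructor <;> omega
        have hM := walk_Mt hx p
        obtain ⟨t, ht⟩ := typ_of hYW hW haY hM hr
        refine ⟨?_, rch_of ht⟩
        rw [SE_iff (Cls_inv a) hYW]
        refine ⟨Cls_symm (Mt_Cls hM), hr, t, ht.2.1, ?_⟩
        have h2 := (G1 (s * n) a t haY (Mt_Cls hM) ht).2 p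
        have h3 : (t : ℝ) ≤ p.length + B := by exact_mod_cast h2
        linarith
      · right; exact hr
    have h3 : (cF s {x | Near N τ x a} N : ℝ) ≤ cF s (SE (FS (Cls a) Y W) (τ + B) ∩ {x | Rch N ((W : ℝ) + 1) x}) N
        + cF s {x | ¬ ∃ k, |C^[k] x| ≤ Y} N := by exact_mod_cast this
    linarith

/-- CENTRAL LIMIT THEOREM for the distance to a fixed vertex -/
theorem clt_dist {s : ℤ} (hs : s = 1 ∨ s = -1) {κ : ℝ} (hκ : Tendsto kap atTop (𝓝 κ)) (hκ0 : 0 < κ) (hκ1 : κ ≤ 1) {a : ℤ}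
    (ha : 0 < s * a) {δ : ℝ} (hδ : HD s (Cls a) δ) (z : ℝ) :
    Tendsto (fun N : ℕ => ({x : ℤ | |x| ≤ N ∧ Near N (thr al sd z (Real.log N)) x a}.ncard : ℝ) / N) atTop
      (𝓝 (κ * δ * Phi z)) := by
  rw [Metric.tendsto_atTop]
  intro ε hε
  obtain ⟨Y1, H1⟩ := sandwich hs (show 0 < ε / 4 by positivity)
  obtain ⟨Y2, H2⟩ := dens_F hs (show 0 < ε / 4 by positivity)
  obtain ⟨Y3, -, H3⟩ := main_law hs hκ (show 0 < ε / 4 by positivity)
  obtain ⟨Y4, hY4⟩ := exists_nat_ge Y3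
  set Y := max (max Y1 Y2) (max Y4 a.natAbs) with hY
  have c1 : Y1 ≤ Y := (le_max_left _ _).trans (le_max_left _ _)
  have c2 : Y2 ≤ Y := (le_max_right _ _).trans (le_max_left _ _)
  have c4 : Y4 ≤ Y := (le_max_left _ _).trans (le_max_right _ _)
  have c5 : |a| ≤ Y := by
    rw [abs_nat]
    exact_mod_cast (le_max_right Y4 a.natAbs).trans (le_max_right _ _)
  obtain ⟨W, hYW, B, N0, G1⟩ := H1 Y c1
  obtain ⟨δF, hF0, hF1, hF2, hF3⟩ := law_F hs (FS (Cls a) Y W)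
  obtain ⟨d1, d2⟩ := H2 Y W c2 hYW (Cls a) (Cls_inv a) δ δF hδ hF2
  have hW1 : Y3 ≤ (W : ℝ) + 1 := by
    have h1 : (Y4 : ℝ) ≤ W := by exact_mod_cast c4.trans hYW
    linarith
  obtain ⟨κ', hκ', G2⟩ := H3 ((W : ℝ) + 1) hW1 (FS (Cls a) Y W) δF hF0 hF1 hF3 z
  have tl : Tendsto (fun N : ℕ => Real.sqrt (Real.log N)) atTop atTop :=
    Real.tendsto_sqrt_atTop.comp (Real.tendsto_log_atTop.comp tendsto_natCast_atTop_atTop)
  have h0 := tl.eventually_ge_atTop ((B : ℝ) / κ')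
  obtain ⟨N1, hN1⟩ := eventually_atTop.1 (h0.and (G2.and (eventually_ge_atTop (max N0 1))))
  refine ⟨N1, fun N hN => ?_⟩
  obtain ⟨h1, h2, h3⟩ := hN1 N hN
  have hNR : (0 : ℝ) < N := by exact_mod_cast (le_max_right N0 1).trans h3
  rw [div_le_iff₀ hκ'] at h1
  have hB0 : (0 : ℝ) ≤ B := Nat.cast_nonneg B
  set τ := thr al sd z (Real.log N) with hτ
  have u1 := h2 (τ - B) (by
    rw [show τ - B - τ = -(B : ℝ) by ring, abs_neg, abs_of_nonneg hB0]; linarith)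
  have u2 := h2 (τ + B) (by
    rw [show τ + B - τ = (B : ℝ) by ring, abs_of_nonneg hB0]; linarith)
  obtain ⟨l1, l2⟩ := G1 N ((le_max_left _ _).trans h3) a ha c5 τ
  obtain ⟨p0, p1⟩ := phi01 z
  rw [Real.dist_eq, abs_lt, ← sub_pos]
  have hk : |κ * (δF * Phi z) * N - κ * δ * Phi z * N| ≤ ε / 4 * N := by
    have e : κ * (δF * Phi z) * N - κ * δ * Phi z * N = (κ * Phi z) * (δF - δ) * N := by ring
    rw [e, abs_mul, abs_mul, abs_of_nonneg (by positivity : 0 ≤ κ * Phi z), abs_of_pos hNR]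
    apply mul_le_mul_of_nonneg_right _ hNR.le
    have : |δF - δ| ≤ ε / 4 := by rw [abs_le]; constructor <;> linarith
    have h5 : κ * Phi z ≤ 1 := by nlinarith
    calc κ * Phi z * |δF - δ| ≤ 1 * (ε / 4) := mul_le_mul h5 this (abs_nonneg _) (by norm_num)
      _ = ε / 4 := one_mul _
  rw [abs_le] at u1 u2 hk
  have e : ∀ c : ℝ, c / N - κ * δ * Phi z = (c - κ * δ * Phi z * N) / N := by
    intro c; field_simp
  rw [e]
  have hpos : 0 < ε * N := by positivity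
  constructor
  · rw [sub_pos, lt_div_iff₀ hNR]
    linarith
  · rw [div_lt_iff₀ hNR]
    linarith

end Pool.Agent.H623.DG
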