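import Pool.Agent.H623.DG.F

/-! Distances in the truncated graph, part G: pairs. -/

set_option autoImplicit false

namespace Pool.Agent.H623.DG

open Finset Filter Topology
open Pool.Agent.H499R2.CO (Tz)
open Pool.Agent.H499R2.ND (Dn cnt cnt_eq Phi Phi_continuous phi_cdf HD)
open Pool.Agent.W41 (cF cF_ncard s_mul)
open Pool.Agent.Y964.LW (thr fix_law)
open Pool.Agent.H623.TG (C Edge Comp Mt mem_Comp Cls Cls_trans Cls_symm Cls_eq Cls_self Cls_sign Cls_inv Rch ret_bdd_all Mt_large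
  abs_nat Mt_Cls Mt_of_eqv Mt_refl Mt_left Mt_symm low_iff bg_rch Bg kap cL cL_eq exc cF_mono cF_union cF_fin HasD T_is_C
  abs_side sign_side tight Comp_eq self_mem Comp_fin)

theorem pair_bound {N : ℕ} {A : Finset ℤ} {P Q : Set (ℤ × ℤ)} (hQ : Q.Finite)
    (h : ∀ p ∈ P, |p.1| ≤ N ∧ |p.2| ≤ N ∧ (p.1 ∈ A ∨ p.2 ∈ A ∨ p ∈ Q)) :
    P.ncard ≤ 2 * (A.card * (2 * N + 1)) + Q.ncard := by
  classical
  set I : Finset ℤ := Icc (-(N : ℤ)) N with hI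
  have hIc : I.card = 2 * N + 1 := by rw [hI, Int.card_Icc]; omega
  have hsub : P ⊆ (((A ×ˢ I ∪ I ×ˢ A : Finset (ℤ × ℤ)) : Set (ℤ × ℤ)) ∪ Q) := by
    rintro ⟨x, y⟩ hp
    obtain ⟨h1, h2, h3⟩ := h _ hp
    simp only at h1 h2 h3
    rw [abs_le] at h1 h2
    rcases h3 with h3 | h3 | h3
    · left
      rw [mem_coe, mem_union, mem_product, mem_product]
      exact Or.inl ⟨h3, by rw [hI, mem_Icc]; exact h2⟩
    · left
      rw [mem_coe, mem_union, mem_product, mem_product]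
      exact Or.inr ⟨by rw [hI, mem_Icc]; exact h1, h3⟩
    · right; exact h3
  have h1 := Set.ncard_le_ncard hsub ((Finset.finite_toSet _).union hQ)
  refine h1.trans ((Set.ncard_union_le _ _).trans ?_)
  rw [Set.ncard_coe_finset]
  apply Nat.add_le_add _ le_rfl
  refine (card_union_le _ _).trans ?_
  rw [card_product, card_product, hIc]
  exact le_of_eq (by ring)

open Classical in
/-- the vertices without the property `R` -/
noncomputable def NT (R : ℤ → Prop) (N : ℕ) : Finset ℤ := (Icc (-(N : ℤ)) N).filter (fun x => ¬ R x)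

theorem NT_card (R : ℤ → Prop) (N : ℕ) : (NT R N).card ≤ cF 1 {x | ¬ R x} N + cF (-1) {x | ¬ R x} N + 1 := by
  classical
  have hsub : NT R N ⊆ ((Icc 1 N).filter (fun n : ℕ => (1 : ℤ) * (n : ℤ) ∈ {x | ¬ R x})).image (fun n : ℕ => (n : ℤ)) ∪
      ((Icc 1 N).filter (fun n : ℕ => (-1 : ℤ) * (n : ℤ) ∈ {x | ¬ R x})).image (fun n : ℕ => -(n : ℤ)) ∪ {0} := by
    intro x hx
    unfold NT at hx
    rw [mem_filter, mem_Icc] at hx
    obtain ⟨⟨h1, h2⟩, h3⟩ := hx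
    simp only [mem_union, mem_image, mem_filter, mem_Icc, mem_singleton, Set.mem_ofPred_eq]
    rcases lt_trichotomy x 0 with h | h | h
    · left; right
      exact ⟨(-x).toNat, ⟨⟨by omega, by omega⟩, by rw [Int.toNat_of_nonneg (by omega)]; simpa using h3⟩, by
        rw [Int.toNat_of_nonneg (by omega)]; ring⟩
    · right; exact h
    · left; left
      exact ⟨x.toNat, ⟨⟨by omega, by omega⟩, by rw [Int.toNat_of_nonneg (by omega)]; simpa using h3⟩, by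
        rw [Int.toNat_of_nonneg (by omega)]⟩
  refine (card_le_card hsub).trans ((card_union_le _ _).trans (Nat.add_le_add ((card_union_le _ _).trans
    (Nat.add_le_add ?_ ?_)) ?_))
  · refine card_image_le.trans (le_of_eq ?_)
    unfold cF
    congr
  · refine card_image_le.trans (le_of_eq ?_)
    unfold cF
    congr
  · simp

/-- few pairs meet above `W` -/
theorem few_MA {ε : ℝ} (hε : 0 < ε) : ∃ W0 : ℕ, ∀ W : ℕ, W0 ≤ W → ∀ N : ℕ,
    {p : ℤ × ℤ | |p.1| ≤ N ∧ |p.2| ≤ N ∧ MA W p.1 p.2}.Finite ∧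
    ({p : ℤ × ℤ | |p.1| ≤ N ∧ |p.2| ≤ N ∧ MA W p.1 p.2}.ncard : ℝ) ≤ ε * (N : ℝ) ^ 2 := by
  obtain ⟨K, hK⟩ := Pool.Agent.Results.MP_d02c56_nt.PairsMeetLow.result 1
  have tl : Tendsto (fun W : ℕ => Real.log W) atTop atTop :=
    Real.tendsto_log_atTop.comp tendsto_natCast_atTop_atTop
  obtain ⟨W0, hW0⟩ := eventually_atTop.1 ((tl.eventually_ge_atTop (K / ε)).and (eventually_ge_atTop 2))
  refine ⟨W0, fun W hW N => ?_⟩
  obtain ⟨h1, h2⟩ := hW0 W hW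
  have h2R : (2 : ℝ) ≤ W := by exact_mod_cast h2
  have hlog : 0 < Real.log W := Real.log_pos (by linarith)
  constructor
  · apply ((Icc (-(N : ℤ)) N ×ˢ Icc (-(N : ℤ)) N).finite_toSet).subset
    rintro ⟨x, y⟩ ⟨h3, h4, _⟩
    rw [abs_le] at h3 h4
    rw [mem_coe, mem_product, mem_Icc, mem_Icc]
    exact ⟨h3, h4⟩
  · have h3 := hK W h2R N
    have e : {p : ℤ × ℤ | |p.1| ≤ N ∧ |p.2| ≤ N ∧ MA W p.1 p.2} = {p : ℤ × ℤ | |p.1| ≤ N ∧ |p.2| ≤ N ∧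
        Pool.Agent.Results.MP_d02c56_nt.PairsMeetLow.MeetAbove (W : ℝ) p.1 p.2} := by
      ext p
      simp only [Set.mem_ofPred_eq, MA_iff]
    rw [e]
    refine h3.trans ?_
    rw [pow_one, div_le_iff₀ hlog]
    rw [div_le_iff₀ hε] at h1
    have : (0 : ℝ) ≤ (N : ℝ) ^ 2 := by positivity
    nlinarith

theorem dist_bounds {N : ℕ} {x y : ℤ} {t B : ℕ} (h1 : ∃ p : (Gr N).Walk x y, p.length ≤ t + B)
    (h2 : ∀ p : (Gr N).Walk x y, t ≤ p.length + B) : (Gr N).dist x y ≤ t + B ∧ t ≤ (Gr N).dist x y + B := by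
  obtain ⟨p, hp⟩ := h1
  refine ⟨(SimpleGraph.dist_le p).trans hp, ?_⟩
  obtain ⟨q, hq⟩ := SimpleGraph.Reachable.exists_walk_length_eq_dist ⟨p⟩
  rw [← hq]
  exact h2 q

/-- (1) THE CENTER of the pairs -/
theorem pairs_center {a : ℤ} {ε : ℝ} (hε : 0 < ε) : ∃ M N0 : ℕ, ∀ N : ℕ, N0 ≤ N →
    ({p : ℤ × ℤ | p.1 ∈ Comp N a ∧ p.2 ∈ Comp N a ∧
      M < |((Gr N).dist p.1 p.2 : ℤ) - (Gr N).dist p.1 a - (Gr N).dist p.2 a|}.ncard : ℝ) ≤ ε * (N : ℝ) ^ 2 := by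
  classical
  obtain ⟨Y1, H1⟩ := reach (s := 1) (Or.inl rfl) (show 0 < ε / 40 by positivity)
  obtain ⟨Y2, H2⟩ := reach (s := -1) (Or.inr rfl) (show 0 < ε / 40 by positivity)
  obtain ⟨Y3, H3⟩ := few_MA (show 0 < ε / 2 by positivity)
  set Y := max (max Y1 Y2) (max Y3 a.natAbs) with hY
  have c1 : Y1 ≤ Y := (le_max_left _ _).trans (le_max_left _ _)
  have c2 : Y2 ≤ Y := (le_max_right _ _).trans (le_max_left _ _)
  have c3 : Y3 ≤ Y := (le_max_left _ _).trans (le_max_right _ _)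
  have c5 : |a| ≤ Y := by
    rw [abs_nat]
    exact_mod_cast (le_max_right Y3 a.natAbs).trans (le_max_right _ _)
  obtain ⟨N1, G1⟩ := H1 Y c1
  obtain ⟨N2, G2⟩ := H2 Y c2
  obtain ⟨W, hYW, hW, B, N3, G3⟩ := center Y
  obtain ⟨N4, hN4⟩ := exists_nat_ge (40 / ε)
  refine ⟨3 * B, max (max N1 N2) (max (max N3 N4) 1), fun N hN => ?_⟩
  have e1 : N1 ≤ N := (le_max_left _ _).trans ((le_max_left _ _).trans hN)
  have e2 : N2 ≤ N := (le_max_right _ _).trans ((le_max_left _ _).trans hN)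
  have e3 : N3 ≤ N := (le_max_left _ _).trans ((le_max_left _ _).trans ((le_max_right _ _).trans hN))
  have e4 : N4 ≤ N := (le_max_right _ _).trans ((le_max_left _ _).trans ((le_max_right _ _).trans hN))
  have e5 : 1 ≤ N := (le_max_right _ _).trans ((le_max_right _ _).trans hN)
  have hNR : (1 : ℝ) ≤ N := by exact_mod_cast e5
  obtain ⟨hQf, hQ⟩ := H3 W (c3.trans hYW) N
  obtain ⟨K1, K2⟩ := G3 N e3
  have hb := pair_bound (N := N) (A := NT (fun x => ∃ k, |C^[k] x| ≤ Y) N)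
    (P := {p : ℤ × ℤ | p.1 ∈ Comp N a ∧ p.2 ∈ Comp N a ∧
      ((3 * B : ℕ) : ℤ) < |((Gr N).dist p.1 p.2 : ℤ) - (Gr N).dist p.1 a - (Gr N).dist p.2 a|}) hQf (by
    rintro ⟨x, y⟩ ⟨h1, h2, h3⟩
    simp only at h1 h2 h3
    refine ⟨h1.1, h2.1, ?_⟩
    by_contra hcon
    push Not at hcon
    obtain ⟨g1, g2, g3⟩ := hcon
    have hx : ∃ k, |C^[k] x| ≤ Y := by
      by_contra hc
      apply g1
      unfold NT
      rw [mem_filter, mem_Icc, ← abs_le]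
      exact ⟨h1.1, hc⟩
    have hy : ∃ k, |C^[k] y| ≤ Y := by
      by_contra hc
      apply g2
      unfold NT
      rw [mem_filter, mem_Icc, ← abs_le]
      exact ⟨h2.1, hc⟩
    have hMA : ¬ MA W x y := fun hm => g3 ⟨h1.1, h2.1, hm⟩
    have hMx := Mt_symm (mem_Comp.1 h1)
    have hMy := Mt_symm (mem_Comp.1 h2)
    obtain ⟨t, ht⟩ := typ_of hYW hW c5 hMx hx
    obtain ⟨u, hu⟩ := typ_of hYW hW c5 hMy hy
    obtain ⟨a1, a2⟩ := K1 x a t c5 (Mt_Cls hMx) ht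
    obtain ⟨b1, b2⟩ := K1 y a u c5 (Mt_Cls hMy) hu
    obtain ⟨d1, d2⟩ := K2 x y t u (Cls_trans (Mt_Cls hMx) (Cls_symm (Mt_Cls hMy))) ht hu hMA
    obtain ⟨f1, f2⟩ := dist_bounds a1 a2
    obtain ⟨f3, f4⟩ := dist_bounds b1 b2
    obtain ⟨f5, f6⟩ := dist_bounds d1 d2
    push_cast at h3
    rw [lt_abs] at h3
    omega)
  have h5 := NT_card (fun x => ∃ k, |C^[k] x| ≤ Y) N
  have h6 := G1 N e1
  have h7 := G2 N e2
  have h8 : (({p : ℤ × ℤ | p.1 ∈ Comp N a ∧ p.2 ∈ Comp N a ∧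
      ((3 * B : ℕ) : ℤ) < |((Gr N).dist p.1 p.2 : ℤ) - (Gr N).dist p.1 a - (Gr N).dist p.2 a|}).ncard : ℝ) ≤
      2 * ((NT (fun x => ∃ k, |C^[k] x| ≤ Y) N).card * (2 * N + 1)) +
      {p : ℤ × ℤ | |p.1| ≤ N ∧ |p.2| ≤ N ∧ MA W p.1 p.2}.ncard := by exact_mod_cast hb
  have h9 : ((NT (fun x => ∃ k, |C^[k] x| ≤ Y) N).card : ℝ) ≤ cF 1 {x | ¬ ∃ k, |C^[k] x| ≤ Y} N +
    cF (-1) {x | ¬ ∃ k, |C^[k] x| ≤ Y} N + 1 := by exact_mod_cast h5
  have h10 : (1 : ℝ) ≤ ε / 40 * N := by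
    have : (N4 : ℝ) ≤ N := by exact_mod_cast e4
    rw [div_le_iff₀ hε] at hN4
    nlinarith
  have h11 : ((NT (fun x => ∃ k, |C^[k] x| ≤ Y) N).card : ℝ) ≤ 3 * (ε / 40) * N := by linarith
  have h12 : ((NT (fun x => ∃ k, |C^[k] x| ≤ Y) N).card : ℝ) * (2 * N + 1) ≤ 3 * (ε / 40) * N * (3 * N) :=
    mul_le_mul h11 (by linarith) (by positivity) (by positivity)
  nlinarith

end Pool.Agent.H623.DG
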