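import Pool.Agent.H623.DG.G

/-! Distances in the truncated graph, part H: the law of large numbers for the distances of pairs. -/

set_option autoImplicit false

namespace Pool.Agent.H623.DG

open Finset Filter Topology
open Pool.Agent.H499R2.CO (Tz)
open Pool.Agent.H499R2.ND (Dn cnt cnt_eq Phi Phi_continuous phi_cdf HD Phi_neg)
open Pool.Agent.W41 (cF cF_ncard s_mul)
open Pool.Agent.Y964.LW (thr fix_law)
open Pool.Agent.H623.TG (C Edge Comp Mt mem_Comp Cls Cls_trans Cls_symm Cls_eq Cls_self Cls_sign Cls_inv Rch ret_bdd_all Mt_large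
  abs_nat Mt_Cls Mt_of_eqv Mt_refl Mt_left Mt_symm Mt_trans low_iff bg_rch Bg kap cL cL_eq exc cF_mono cF_union cF_fin HasD T_is_C
  abs_side sign_side tight Comp_eq self_mem Comp_fin Odd' Odd'_fin)

theorem inv_univ : Pool.Agent.H623.TG.Invt (Set.univ : Set ℤ) := fun _ => ⟨fun _ => trivial, fun _ => trivial⟩

theorem cF_univ (s : ℤ) (N : ℕ) : cF s Set.univ N = N := by
  classical
  unfold cF
  simp

theorem HD_univ {s : ℤ} (hs : s = 1 ∨ s = -1) : HD s Set.univ 1 := by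
  obtain ⟨δ, h1, h2⟩ := Pool.Agent.H623.TG.dens_ex hs inv_univ
  have h3 : Tendsto (fun N : ℕ => ({n : ℤ | 0 < s * n ∧ s * n ≤ N ∧ n ∈ (Set.univ : Set ℤ)}.ncard : ℝ) / N) atTop (𝓝 1) := by
    refine tendsto_const_nhds.congr' ?_
    filter_upwards [eventually_ge_atTop 1] with N hN
    have : (0 : ℝ) < N := by exact_mod_cast hN
    rw [cF_ncard hs, cF_univ, div_self this.ne']
  rw [tendsto_nhds_unique h2 h3] at h1
  exact h1

/-- typical passage time -/
def TL (N : ℕ) (ε : ℝ) (Y W : ℕ) (x : ℤ) : Prop :=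
  (∃ k, |C^[k] x| ≤ Y) ∧ ∀ t, FP W x t → |(t : ℝ) - al * Real.log N| ≤ ε * Real.log N

theorem lln_FP {s : ℤ} (hs : s = 1 ∨ s = -1) {ε : ℝ} (hε : 0 < ε) : ∃ Y0 : ℕ, ∀ Y : ℕ, Y0 ≤ Y → ∀ W : ℕ, Y ≤ W →
    ∃ N0 : ℕ, ∀ N : ℕ, N0 ≤ N → (cF s {x | ¬ TL N ε Y W x} N : ℝ) ≤ ε * N := by
  classical
  obtain ⟨Y0, H⟩ := dens_F hs (show 0 < ε / 4 by positivity)
  refine ⟨Y0, fun Y hY W hYW => ?_⟩
  obtain ⟨δF, hF0, hF1, hF2, hF3⟩ := law_F hs (FS Set.univ Y W)
  obtain ⟨d1, -⟩ := H Y W hY hYW Set.univ inv_univ 1 δF (HD_univ hs) hF2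
  -- choose `X`
  obtain ⟨X, hX0, hX⟩ : ∃ X : ℝ, 0 ≤ X ∧ 1 - ε / 8 ≤ Phi X := by
    have h1 := ProbabilityTheory.tendsto_cdf_atTop (ProbabilityTheory.gaussianReal 0 1)
    have h2 := (h1.eventually (lt_mem_nhds (show 1 - ε / 8 < 1 by linarith))).and (eventually_ge_atTop 0)
    obtain ⟨X, h3, h4⟩ := h2.exists
    refine ⟨X, h4, ?_⟩
    rw [phi_cdf]
    exact h3.le
  have hX' : Phi (-X) ≤ ε / 8 := by rw [Phi_neg]; linarith
  obtain ⟨κ1, hκ1, G1⟩ := fix_law (P := Ev s (FS Set.univ Y W)) (fun τ τ' n h hE => Ev_mono τ τ' n h hE) sd_pos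
    (F := fun x => δF * Phi x) (continuous_const.mul Phi_continuous) hF3 X (show 0 < ε / 8 by positivity) 1
  obtain ⟨κ2, hκ2, G2⟩ := fix_law (P := Ev s (FS Set.univ Y W)) (fun τ τ' n h hE => Ev_mono τ τ' n h hE) sd_pos
    (F := fun x => δF * Phi x) (continuous_const.mul Phi_continuous) hF3 (-X) (show 0 < ε / 8 by positivity) 1
  have tl : Tendsto (fun N : ℕ => Real.sqrt (Real.log N)) atTop atTop :=
    Real.tendsto_sqrt_atTop.comp (Real.tendsto_log_atTop.comp tendsto_natCast_atTop_atTop)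
  obtain ⟨N0, hN0⟩ := eventually_atTop.1 ((tl.eventually_ge_atTop (X * sd / ε)).and (G1.and (G2.and (eventually_ge_atTop 1))))
  refine ⟨N0, fun N hN => ?_⟩
  obtain ⟨h1, h2, h3, h4⟩ := hN0 N hN
  have hNR : (0 : ℝ) < N := by exact_mod_cast h4
  have hlog : 0 ≤ Real.log N := Real.log_natCast_nonneg N
  have hsd := sd_pos
  have u1 := h2 (thr al sd X (Real.log N)) (by rw [sub_self, abs_zero]; positivity) N (by rw [one_mul])
  have u2 := h3 (thr al sd (-X) (Real.log N)) (by rw [sub_self, abs_zero]; positivity) N (by rw [one_mul])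
  obtain ⟨p0, p1⟩ := phi01 X
  obtain ⟨q0, q1⟩ := phi01 (-X)
  set E1 := cnt (Ev s (FS Set.univ Y W) (thr al sd X (Real.log N))) N with hE1
  set E2 := cnt (Ev s (FS Set.univ Y W) (thr al sd (-X) (Real.log N))) N with hE2
  have hEv : ∀ (τ : ℝ) (n : ℕ), Ev s (FS Set.univ Y W) τ n ↔ s * (n : ℤ) ∈ SE (FS Set.univ Y W) τ := fun τ n => Iff.rfl
  -- the exceptional set
  have hb : (cF s {x | ¬ TL N ε Y W x} N : ℝ) ≤ (N - E1) + E2 := by
    have hsub : (Icc 1 N).filter (fun n : ℕ => s * (n : ℤ) ∈ {x | ¬ TL N ε Y W x}) ⊆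
        ((Icc 1 N) \ ((Icc 1 N).filter (Ev s (FS Set.univ Y W) (thr al sd X (Real.log N))))) ∪
        ((Icc 1 N).filter (Ev s (FS Set.univ Y W) (thr al sd (-X) (Real.log N)))) := by
      intro n hn
      rw [mem_filter] at hn
      obtain ⟨hn1, hn2⟩ := hn
      rw [mem_union, Finset.mem_sdiff, mem_filter, mem_filter]
      by_contra hcon
      push Not at hcon
      obtain ⟨g1, g2⟩ := hcon
      have g1' := (g1 hn1).2
      have g2' := g2 hn1
      rw [hEv, SE_iff inv_univ hYW] at g1'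
      apply hn2
      refine ⟨g1'.2.1, fun t ht => ?_⟩
      obtain ⟨t', ht', htau⟩ := g1'.2.2
      have := FP_unique ht ht'
      subst this
      have h5 : thr al sd (-X) (Real.log N) < t := by
        by_contra hc
        push Not at hc
        exact g2' ((hEv _ _).2 ((SE_iff inv_univ hYW).2 ⟨trivial, g1'.2.1, t, ht, hc⟩))
      have h6 : X * sd * Real.sqrt (Real.log N) ≤ ε * Real.log N := by
        have h7 : X * sd ≤ ε * Real.sqrt (Real.log N) := by
          rw [div_le_iff₀ hε] at h1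
          linarith
        have h8 := Real.sqrt_nonneg (Real.log N)
        calc X * sd * Real.sqrt (Real.log N) ≤ ε * Real.sqrt (Real.log N) * Real.sqrt (Real.log N) :=
              mul_le_mul_of_nonneg_right h7 h8
          _ = ε * Real.log N := by rw [mul_assoc, Real.mul_self_sqrt hlog]
      unfold thr at htau h5
      rw [abs_le]
      constructor <;> nlinarith
    have h5 := card_le_card hsub
    have h6 := h5.trans (card_union_le _ _)
    have hsubs : (Icc 1 N).filter (Ev s (FS Set.univ Y W) (thr al sd X (Real.log N))) ⊆ Icc 1 N := filter_subset _ _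
    rw [card_sdiff_of_subset hsubs, Nat.card_Icc] at h6
    have h7 : ((Icc 1 N).filter (Ev s (FS Set.univ Y W) (thr al sd X (Real.log N)))).card ≤ N := by
      have := card_le_card hsubs
      rw [Nat.card_Icc] at this
      omega
    have h8 : cF s {x | ¬ TL N ε Y W x} N ≤ (N + 1 - 1 - ((Icc 1 N).filter (Ev s (FS Set.univ Y W) (thr al sd X (Real.log N)))).card) +
        ((Icc 1 N).filter (Ev s (FS Set.univ Y W) (thr al sd (-X) (Real.log N)))).card := by
      unfold cF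
      refine le_trans (le_of_eq ?_) h6
      congr
    have e1 : E1 = (((Icc 1 N).filter (Ev s (FS Set.univ Y W) (thr al sd X (Real.log N)))).card : ℝ) := cnt_eq _ _
    have e2 : E2 = (((Icc 1 N).filter (Ev s (FS Set.univ Y W) (thr al sd (-X) (Real.log N)))).card : ℝ) := cnt_eq _ _
    rw [e1, e2]
    have h9 : (cF s {x | ¬ TL N ε Y W x} N : ℝ) ≤ (((N + 1 - 1 - ((Icc 1 N).filter (Ev s (FS Set.univ Y W) (thr al sd X (Real.log N)))).card) +
        ((Icc 1 N).filter (Ev s (FS Set.univ Y W) (thr al sd (-X) (Real.log N)))).card : ℕ) : ℝ) := by exact_mod_cast h8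
    rw [Nat.add_sub_cancel] at h9
    push_cast [Nat.cast_sub h7] at h9
    exact h9
  rw [abs_le] at u1 u2
  have v1 : δF * Phi X ≥ (1 - ε / 4) * (1 - ε / 8) ∨ ε ≥ 4 := by
    rcases le_or_gt 4 ε with h | h
    · right; exact h
    · left
      apply mul_le_mul d1 hX (by linarith) hF0
  have v2 : δF * Phi (-X) ≤ ε / 8 := by nlinarith
  rcases v1 with v1 | v1
  · have v3 : (1 - ε / 2) ≤ δF * Phi X := by nlinarith [sq_nonneg ε]
    nlinarith
  · have h9 : (cF s {x | ¬ TL N ε Y W x} N : ℝ) ≤ N := by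
      have : cF s {x | ¬ TL N ε Y W x} N ≤ N := by
        have := cF_mono (s := s) (S := {x | ¬ TL N ε Y W x}) (S' := Set.univ) (N := N) (fun n _ _ _ => trivial)
        rwa [cF_univ] at this
      exact_mod_cast this
    nlinarith

/-- (3) LAW OF LARGE NUMBERS for the distances -/
theorem pairs_lln {ε : ℝ} (hε : 0 < ε) : ∃ N0 : ℕ, ∀ N : ℕ, N0 ≤ N →
    ({p : ℤ × ℤ | |p.1| ≤ N ∧ |p.2| ≤ N ∧ (Gr N).Reachable p.1 p.2 ∧
      ε * Real.log N < |((Gr N).dist p.1 p.2 : ℝ) - 2 * al * Real.log N|}.ncard : ℝ) ≤ ε * (N : ℝ) ^ 2 := by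
  classical
  obtain ⟨η, hη, hηε, hη4⟩ : ∃ η : ℝ, 0 < η ∧ η ≤ ε / 60 ∧ η ≤ ε / 4 := ⟨ε / 60, by positivity, le_rfl, by linarith⟩
  obtain ⟨Y1, H1⟩ := lln_FP (s := 1) (Or.inl rfl) hη
  obtain ⟨Y2, H2⟩ := lln_FP (s := -1) (Or.inr rfl) hη
  obtain ⟨Y3, H3⟩ := few_MA (show 0 < ε / 4 by positivity)
  obtain ⟨M, N5, HM⟩ := tight hη
  set Y := max (max Y1 Y2) (max Y3 M) with hY
  have c1 : Y1 ≤ Y := (le_max_left _ _).trans (le_max_left _ _)
  have c2 : Y2 ≤ Y := (le_max_right _ _).trans (le_max_left _ _)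
  have c3 : Y3 ≤ Y := (le_max_left _ _).trans (le_max_right _ _)
  have c4 : M ≤ Y := (le_max_right _ _).trans (le_max_right _ _)
  obtain ⟨W, hYW, hW, B, N3, G3⟩ := center Y
  obtain ⟨N1, G1⟩ := H1 Y c1 W hYW
  obtain ⟨N2, G2⟩ := H2 Y c2 W hYW
  obtain ⟨N4, hN4⟩ := exists_nat_ge (max (1 / η) (12 * M / ε))
  have tl : Tendsto (fun N : ℕ => Real.log N) atTop atTop :=
    Real.tendsto_log_atTop.comp tendsto_natCast_atTop_atTop
  obtain ⟨N6, hN6⟩ := eventually_atTop.1 (tl.eventually_ge_atTop (2 * B / ε))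
  refine ⟨max (max N1 N2) (max (max N3 N4) (max 1 (max N5 N6))), fun N hN => ?_⟩
  have e1 : N1 ≤ N := (le_max_left _ _).trans ((le_max_left _ _).trans hN)
  have e2 : N2 ≤ N := (le_max_right _ _).trans ((le_max_left _ _).trans hN)
  have e3 : N3 ≤ N := (le_max_left _ _).trans ((le_max_left _ _).trans ((le_max_right _ _).trans hN))
  have e4 : N4 ≤ N := (le_max_right _ _).trans ((le_max_left _ _).trans ((le_max_right _ _).trans hN))
  have e56 := (le_max_right _ _).trans ((le_max_right _ _).trans hN)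
  have e5 : 1 ≤ N := (le_max_left _ _).trans e56
  have e7 : N5 ≤ N := (le_max_left _ _).trans ((le_max_right _ _).trans e56)
  have e8 : N6 ≤ N := (le_max_right _ _).trans ((le_max_right _ _).trans e56)
  have hNR : (1 : ℝ) ≤ N := by exact_mod_cast e5
  have hlogN := hN6 N e8
  have hlog0 : 0 ≤ Real.log N := Real.log_natCast_nonneg N
  rw [div_le_iff₀ hε] at hlogN
  obtain ⟨hQf, hQ⟩ := H3 W (c3.trans hYW) N
  obtain ⟨K1, K2⟩ := G3 N e3
  set S2 : Finset (ℤ × ℤ) := (Icc (-(N : ℤ)) N).biUnion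
    (fun x => if (Comp N x).ncard ≤ M then (Comp_fin N x).toFinset.image (fun y => (x, y)) else ∅) with hS2
  have hS2c : S2.card ≤ (2 * N + 1) * M := by
    refine (card_biUnion_le_card_mul _ _ M fun x _ => ?_).trans (le_of_eq ?_)
    · split_ifs with h
      · refine card_image_le.trans ?_
        rw [← Set.ncard_eq_toFinset_card _ (Comp_fin N x)]
        exact h
      · simp
    · rw [Int.card_Icc]; congr 1; omega
  set A : Finset ℤ := NT (TL N η Y W) N ∪ (Odd'_fin N M).toFinset with hA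
  have hb := pair_bound (N := N) (A := A)
    (Q := {p : ℤ × ℤ | |p.1| ≤ N ∧ |p.2| ≤ N ∧ MA W p.1 p.2} ∪ S2)
    (P := {p : ℤ × ℤ | |p.1| ≤ N ∧ |p.2| ≤ N ∧ (Gr N).Reachable p.1 p.2 ∧
      ε * Real.log N < |((Gr N).dist p.1 p.2 : ℝ) - 2 * al * Real.log N|}) (hQf.union (Finset.finite_toSet _)) (by
    rintro ⟨x, y⟩ ⟨h1, h2, h3, h4⟩
    simp only at h1 h2 h3 h4
    refine ⟨h1, h2, ?_⟩
    by_contra hcon
    push Not at hcon
    obtain ⟨g1, g2, g3⟩ := hcon
    rw [hA, mem_union, not_or] at g1 g2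
    simp only [Set.mem_union, not_or, mem_coe] at g3
    have hTL : ∀ z : ℤ, |z| ≤ N → z ∉ NT (TL N η Y W) N → TL N η Y W z := by
      intro z hz hn
      by_contra hc
      apply hn
      unfold NT
      rw [mem_filter, mem_Icc, ← abs_le]
      exact ⟨hz, hc⟩
    have hx := hTL x h1 g1.1
    have hy := hTL y h2 g2.1
    have hMA : ¬ MA W x y := fun hm => g3.1 ⟨h1, h2, hm⟩
    obtain ⟨p⟩ := h3
    have hM := walk_Mt h1 p
    -- the component of `x` contains a small element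
    have hz : ∃ z ∈ Comp N x, |z| ≤ M := by
      by_contra hc
      push Not at hc
      by_cases hs : (Comp N x).ncard ≤ M
      · apply g3.2
        rw [hS2, mem_biUnion]
        refine ⟨x, by rw [mem_Icc, ← abs_le]; exact h1, ?_⟩
        rw [if_pos hs, mem_image]
        exact ⟨y, by rw [Set.Finite.mem_toFinset]; exact mem_Comp.2 hM, rfl⟩
      · apply g1.2
        rw [Set.Finite.mem_toFinset]
        exact ⟨h1, not_le.1 hs, hc⟩
    obtain ⟨z, hz, hzM⟩ := hz
    have hzY : |z| ≤ Y := hzM.trans (by exact_mod_cast c4)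
    have hMx := mem_Comp.1 hz
    have hMy := Mt_trans (Mt_symm hM) hMx
    obtain ⟨t, ht⟩ := typ_of hYW hW hzY hMx hx.1
    obtain ⟨u, hu⟩ := typ_of hYW hW hzY hMy hy.1
    obtain ⟨d1, d2⟩ := K2 x y t u (Mt_Cls hM) ht hu hMA
    obtain ⟨f5, f6⟩ := dist_bounds d1 d2
    have k1 := hx.2 t ht.2.1
    have k2 := hy.2 u hu.2.1
    have f5' : ((Gr N).dist x y : ℝ) ≤ t + u + B := by exact_mod_cast f5
    have f6' : (t : ℝ) + u ≤ (Gr N).dist x y + B := by exact_mod_cast f6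
    have k3 : η * Real.log N ≤ ε / 4 * Real.log N := mul_le_mul_of_nonneg_right hη4 hlog0
    rw [abs_le] at k1 k2
    rw [lt_abs] at h4
    rcases h4 with h4 | h4
    · linarith
    · linarith)
  have h5 := NT_card (TL N η Y W) N
  have h6 := G1 N e1
  have h7 := G2 N e2
  have hO := HM N e7
  have hAc : A.card ≤ (NT (TL N η Y W) N).card + (Odd' N M).ncard := by
    refine (card_union_le _ _).trans (Nat.add_le_add le_rfl (le_of_eq ?_))
    rw [← Set.ncard_eq_toFinset_card _ (Odd'_fin N M)]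
  have hQc : ({p : ℤ × ℤ | |p.1| ≤ N ∧ |p.2| ≤ N ∧ MA W p.1 p.2} ∪ (S2 : Set (ℤ × ℤ))).ncard ≤
      {p : ℤ × ℤ | |p.1| ≤ N ∧ |p.2| ≤ N ∧ MA W p.1 p.2}.ncard + (2 * N + 1) * M := by
    refine (Set.ncard_union_le _ _).trans (Nat.add_le_add le_rfl ?_)
    rw [Set.ncard_coe_finset]
    exact hS2c
  have hb2 := hb.trans (Nat.add_le_add_left hQc _)
  have hfin : (({p : ℤ × ℤ | |p.1| ≤ N ∧ |p.2| ≤ N ∧ (Gr N).Reachable p.1 p.2 ∧
      ε * Real.log N < |((Gr N).dist p.1 p.2 : ℝ) - 2 * al * Real.log N|}).ncard : ℝ) ≤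
      2 * (A.card * (2 * N + 1)) + ({p : ℤ × ℤ | |p.1| ≤ N ∧ |p.2| ≤ N ∧ MA W p.1 p.2}.ncard + (2 * N + 1) * M) := by
    exact_mod_cast hb2
  have h9 : (A.card : ℝ) ≤ (cF 1 {x | ¬ TL N η Y W x} N + cF (-1) {x | ¬ TL N η Y W x} N + 1) + (Odd' N M).ncard := by
    have : A.card ≤ (cF 1 {x | ¬ TL N η Y W x} N + cF (-1) {x | ¬ TL N η Y W x} N + 1) + (Odd' N M).ncard :=
      hAc.trans (Nat.add_le_add_right h5 _)
    exact_mod_cast this
  have hN4R : (N4 : ℝ) ≤ N := by exact_mod_cast e4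
  have h10 : (1 : ℝ) ≤ η * N := by
    have h11 := (le_max_left _ _).trans (hN4.trans hN4R)
    rw [div_le_iff₀ hη] at h11
    linarith
  have h12 : (M : ℝ) ≤ ε / 12 * N := by
    have h11 := (le_max_right _ _).trans (hN4.trans hN4R)
    rw [div_le_iff₀ hε] at h11
    linarith
  have h13 : (A.card : ℝ) ≤ 4 * η * N := by linarith
  have h14 : (A.card : ℝ) * (2 * N + 1) ≤ 4 * η * N * (3 * N) :=
    mul_le_mul h13 (by linarith) (by positivity) (by positivity)
  have h15 : (2 * (N : ℝ) + 1) * M ≤ (3 * N) * (ε / 12 * N) :=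
    mul_le_mul (by linarith) h12 (Nat.cast_nonneg M) (by positivity)
  have h16 : 4 * η * N * (3 * N) ≤ 4 * (ε / 60) * N * (3 * N) := by
    have : (0 : ℝ) ≤ N * (3 * N) := by positivity
    nlinarith
  nlinarith

end Pool.Agent.H623.DG
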