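import Pool.Agent.H623.DG.H

/-! Distances in the truncated graph, part I: sums of the densities of classes. -/

set_option autoImplicit false

namespace Pool.Agent.H623.DG

open Finset Filter Topology
open Pool.Agent.H499R2.ND (Dn cnt cnt_eq Phi Phi_continuous phi_cdf HD Phi_neg)
open Pool.Agent.W41 (cF cF_ncard s_mul)
open Pool.Agent.Y964.LW (thr fix_law)
open Pool.Agent.H623.TG (C Edge Comp Mt mem_Comp Cls Cls_trans Cls_symm Cls_eq Cls_self Cls_sign Cls_inv kap HasD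
  sign_side Comp_fin size cF_mono)

/-- the densities of pairwise different classes of the sign `s` -/
theorem sum_dens {s : ℤ} (hs : s = 1 ∨ s = -1) {δ : ℤ → ℝ} (F : Finset ℤ) (h0 : ∀ c ∈ F, HD s (Cls c) (δ c))
    (hF : ∀ x ∈ F, ∀ y ∈ F, y ∈ Cls x → x = y) :
    ∑ c ∈ F, δ c ≤ 1 ∧ ((∀ x : ℤ, 0 < s * x → ∃ c ∈ F, x ∈ Cls c) → ∑ c ∈ F, δ c = 1) := by
  classical
  have hD : ∀ c ∈ F, Tendsto (fun N : ℕ => (cF s (Cls c) N : ℝ) / N) atTop (𝓝 (δ c)) := by
    intro c hc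
    obtain ⟨δ', h1, h2⟩ := Pool.Agent.H623.TG.dens_ex hs (Cls_inv c)
    have e : δ' = δ c := Pool.Agent.H499R2.ND.HD_unique h1 (h0 c hc)
    rw [← e]
    refine h2.congr fun N => ?_
    rw [cF_ncard hs]
  have hS : Tendsto (fun N : ℕ => ((∑ c ∈ F, cF s (Cls c) N : ℕ) : ℝ) / N) atTop (𝓝 (∑ c ∈ F, δ c)) := by
    have := tendsto_finsetSum F hD
    refine this.congr fun N => ?_
    push_cast
    rw [sum_div]
  have hunion : ∀ N : ℕ, ∑ c ∈ F, cF s (Cls c) N = ((Icc 1 N).filter (fun n : ℕ => ∃ c ∈ F, s * (n : ℤ) ∈ Cls c)).card := by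
    intro N
    have e : (Icc 1 N).filter (fun n : ℕ => ∃ c ∈ F, s * (n : ℤ) ∈ Cls c) =
        F.biUnion (fun c => (Icc 1 N).filter (fun n : ℕ => s * (n : ℤ) ∈ Cls c)) := by
      ext n
      simp only [mem_filter, mem_biUnion]
      constructor
      · rintro ⟨h1, c, hc, h2⟩; exact ⟨c, hc, h1, h2⟩
      · rintro ⟨c, hc, h1, h2⟩; exact ⟨h1, c, hc, h2⟩
    rw [e, card_biUnion]
    · apply sum_congr rfl
      intro c _
      unfold cF
      congr
    · intro c hc c' hc' hne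
      rw [Function.onFun, disjoint_left]
      intro n h1 h2
      rw [mem_filter] at h1 h2
      exact hne (hF c hc c' hc' (Cls_trans h1.2 (Cls_symm h2.2)))
  constructor
  · refine le_of_tendsto hS ?_
    filter_upwards [eventually_ge_atTop 1] with N hN
    have hNR : (0 : ℝ) < N := by exact_mod_cast hN
    rw [div_le_one hNR, hunion]
    have := card_filter_le (Icc 1 N) (fun n : ℕ => ∃ c ∈ F, s * (n : ℤ) ∈ Cls c)
    rw [Nat.card_Icc, Nat.add_sub_cancel] at this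
    exact_mod_cast this
  · intro hall
    refine tendsto_nhds_unique hS (tendsto_const_nhds.congr' ?_)
    filter_upwards [eventually_ge_atTop 1] with N hN
    have hNR : (0 : ℝ) < N := by exact_mod_cast hN
    rw [hunion, filter_true_of_mem, Nat.card_Icc, Nat.add_sub_cancel, div_self hNR.ne']
    intro n hn
    rw [mem_Icc] at hn
    apply hall
    rw [s_mul hs]
    exact_mod_cast hn.1

section
variable {κ : ℝ} (hκ : Tendsto kap atTop (𝓝 κ)) (hκ0 : 0 < κ) (hκ1 : κ ≤ 1) {δ : ℤ → ℝ}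
  (hδ : ∀ x : ℤ, x ≠ 0 → 0 < δ x ∧ HD x.sign (Cls x) (δ x) ∧ HasD x.sign (Cls x) (δ x))
include hκ hδ

/-- the near vertices -/
def NR' (N : ℕ) (τ : ℝ) (c : ℤ) : Set ℤ := {x : ℤ | |x| ≤ N ∧ Near N τ x c}

omit hκ hδ in
theorem NR_fin (N : ℕ) (τ : ℝ) (c : ℤ) : (NR' N τ c).Finite := by
  apply (Set.finite_Icc (-(N : ℤ)) N).subset
  rintro y ⟨hy, _⟩
  rwa [abs_le] at hy

omit hκ hδ in
theorem NR_sub (N : ℕ) (τ : ℝ) (c : ℤ) : NR' N τ c ⊆ Comp N c := by
  rintro x ⟨h1, p, _⟩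
  exact mem_Comp.2 (Pool.Agent.H623.TG.Mt_symm (walk_Mt h1 p))

/-- at most the share `κ ∑ δ` of the vertices is near the elements of `F` -/
theorem near_upper (F : Finset ℤ) (hF0 : ∀ c ∈ F, c ≠ 0) {ε : ℝ} (hε : 0 < ε) : ∀ᶠ N : ℕ in atTop, ∀ τ : ℝ,
    ({x : ℤ | |x| ≤ N ∧ ∃ c ∈ F, Near N τ x c}.ncard : ℝ) ≤ (κ * ∑ c ∈ F, δ c + ε) * N := by
  classical
  have h1 : Tendsto (fun N : ℕ => ∑ c ∈ F, ((Comp N c).ncard : ℝ) / N) atTop (𝓝 (∑ c ∈ F, κ * δ c)) := by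
    apply tendsto_finsetSum
    intro c hc
    exact Pool.Agent.H623.TG.size' hκ hδ c (hF0 c hc)
  rw [← mul_sum] at h1
  filter_upwards [h1.eventually (gt_mem_nhds (show κ * ∑ c ∈ F, δ c < κ * ∑ c ∈ F, δ c + ε by linarith)),
    eventually_ge_atTop 1] with N h2 h3 τ
  have hNR : (0 : ℝ) < N := by exact_mod_cast h3
  rw [← sum_div, div_lt_iff₀ hNR] at h2
  refine le_trans ?_ h2.le
  have hsub : {x : ℤ | |x| ≤ N ∧ ∃ c ∈ F, Near N τ x c} ⊆ ⋃ c ∈ F, Comp N c := by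
    rintro x ⟨h1, c, hc, h2⟩
    simp only [Set.mem_iUnion]
    exact ⟨c, hc, NR_sub N τ c ⟨h1, h2⟩⟩
  have hfin : (⋃ c ∈ F, Comp N c).Finite := Set.Finite.biUnion (Finset.finite_toSet F) fun c _ => Comp_fin N c
  have h4 := Set.ncard_le_ncard hsub hfin
  have h5 : (⋃ c ∈ F, Comp N c).ncard ≤ ∑ c ∈ F, (Comp N c).ncard := by
    have e : (⋃ c ∈ F, Comp N c) = ((F.biUnion (fun c => (Comp_fin N c).toFinset) : Finset ℤ) : Set ℤ) := by
      ext x
      simp only [Set.mem_iUnion, coe_biUnion, Set.Finite.coe_toFinset, mem_coe]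
    rw [e, Set.ncard_coe_finset]
    refine card_biUnion_le.trans (le_of_eq ?_)
    apply sum_congr rfl
    intro c _
    rw [← Set.ncard_eq_toFinset_card _ (Comp_fin N c)]
  exact_mod_cast h4.trans h5

include hκ0 hκ1
/-- at least the share `κ ∑ δ` of the vertices is near the elements of `F` -/
theorem near_lower (F : Finset ℤ) (hF0 : ∀ c ∈ F, c ≠ 0) (hF : ∀ x ∈ F, ∀ y ∈ F, y ∈ Cls x → x = y) {ε η : ℝ}
    (hε : 0 < ε) (hη : 0 < η) : ∀ᶠ N : ℕ in atTop,
    (κ * ∑ c ∈ F, δ c - ε) * N ≤ ({x : ℤ | |x| ≤ N ∧ ∃ c ∈ F, Near N ((al + η) * Real.log N) x c}.ncard : ℝ) := by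
  classical
  -- choose `X`
  set m : ℝ := κ * ∑ c ∈ F, δ c + 1 with hm
  have hsum0 : 0 ≤ ∑ c ∈ F, δ c := sum_nonneg fun c hc => (hδ c (hF0 c hc)).1.le
  have hm0 : 0 < m := by rw [hm]; positivity
  obtain ⟨X, hX0, hX⟩ : ∃ X : ℝ, 0 ≤ X ∧ 1 - ε / (4 * m) ≤ Phi X := by
    have h1 := ProbabilityTheory.tendsto_cdf_atTop (ProbabilityTheory.gaussianReal 0 1)
    have h2 := (h1.eventually (lt_mem_nhds (show 1 - ε / (4 * m) < 1 by
      have : 0 < ε / (4 * m) := by positivity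
      linarith))).and (eventually_ge_atTop 0)
    obtain ⟨X, h3, h4⟩ := h2.exists
    refine ⟨X, h4, ?_⟩
    rw [phi_cdf]
    exact h3.le
  have h1 : Tendsto (fun N : ℕ => ∑ c ∈ F, ((NR' N (thr al sd X (Real.log N)) c).ncard : ℝ) / N) atTop
      (𝓝 (∑ c ∈ F, κ * δ c * Phi X)) := by
    apply tendsto_finsetSum
    intro c hc
    obtain ⟨g1, g2⟩ := sign_side (hF0 c hc)
    exact clt_dist g1 hκ hκ0 hκ1 g2 (hδ c (hF0 c hc)).2.1 X
  have e1 : ∑ c ∈ F, κ * δ c * Phi X = κ * (∑ c ∈ F, δ c) * Phi X := by rw [mul_sum, sum_mul]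
  rw [e1] at h1
  have hlt : κ * ∑ c ∈ F, δ c - ε < κ * (∑ c ∈ F, δ c) * Phi X := by
    have h2 : 0 ≤ κ * ∑ c ∈ F, δ c := by positivity
    have h3 : κ * (∑ c ∈ F, δ c) * (1 - ε / (4 * m)) ≤ κ * (∑ c ∈ F, δ c) * Phi X := mul_le_mul_of_nonneg_left hX h2
    have h4 : κ * (∑ c ∈ F, δ c) * (ε / (4 * m)) ≤ ε / 4 := by
      rw [mul_div_assoc', div_le_div_iff₀ (by positivity) (by norm_num)]
      nlinarith
    nlinarith
  have tl : Tendsto (fun N : ℕ => Real.sqrt (Real.log N)) atTop atTop :=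
    Real.tendsto_sqrt_atTop.comp (Real.tendsto_log_atTop.comp tendsto_natCast_atTop_atTop)
  have hsd := sd_pos
  filter_upwards [h1.eventually (lt_mem_nhds hlt), tl.eventually_ge_atTop (X * sd / η), eventually_ge_atTop 1]
    with N h2 h3 h4
  have hNR : (0 : ℝ) < N := by exact_mod_cast h4
  have hlog : 0 ≤ Real.log N := Real.log_natCast_nonneg N
  rw [← sum_div, lt_div_iff₀ hNR] at h2
  refine h2.le.trans ?_
  -- disjointness
  have hthr : thr al sd X (Real.log N) ≤ (al + η) * Real.log N := by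
    have h7 : X * sd ≤ η * Real.sqrt (Real.log N) := by
      rw [div_le_iff₀ hη] at h3
      linarith
    have h8 := Real.sqrt_nonneg (Real.log N)
    have h9 : X * sd * Real.sqrt (Real.log N) ≤ η * Real.log N := by
      calc X * sd * Real.sqrt (Real.log N) ≤ η * Real.sqrt (Real.log N) * Real.sqrt (Real.log N) :=
            mul_le_mul_of_nonneg_right h7 h8
        _ = η * Real.log N := by rw [mul_assoc, Real.mul_self_sqrt hlog]
    unfold thr
    nlinarith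
  have hsub : ((F.biUnion (fun c => (NR_fin N (thr al sd X (Real.log N)) c).toFinset) : Finset ℤ) : Set ℤ) ⊆
      {x : ℤ | |x| ≤ N ∧ ∃ c ∈ F, Near N ((al + η) * Real.log N) x c} := by
    intro x hx
    rw [mem_coe, mem_biUnion] at hx
    obtain ⟨c, hc, hx⟩ := hx
    rw [Set.Finite.mem_toFinset] at hx
    obtain ⟨h5, p, hp⟩ := hx
    exact ⟨h5, c, hc, p, hp.trans hthr⟩
  have hfin : {x : ℤ | |x| ≤ N ∧ ∃ c ∈ F, Near N ((al + η) * Real.log N) x c}.Finite := by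
    apply (Set.finite_Icc (-(N : ℤ)) N).subset
    rintro y ⟨hy, _⟩
    rwa [abs_le] at hy
  have h5 := Set.ncard_le_ncard hsub hfin
  rw [Set.ncard_coe_finset, card_biUnion] at h5
  · have e2 : ∑ c ∈ F, (NR_fin N (thr al sd X (Real.log N)) c).toFinset.card
        = ∑ c ∈ F, (NR' N (thr al sd X (Real.log N)) c).ncard := by
      apply sum_congr rfl
      intro c _
      rw [← Set.ncard_eq_toFinset_card _ (NR_fin N _ c)]
    rw [e2] at h5
    exact_mod_cast h5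
  · intro c hc c' hc' hne
    rw [Function.onFun, disjoint_left]
    intro x h6 h7
    rw [Set.Finite.mem_toFinset] at h6 h7
    have h8 := Pool.Agent.H623.TG.Mt_Cls (mem_Comp.1 (NR_sub _ _ _ h6))
    have h9 := Pool.Agent.H623.TG.Mt_Cls (mem_Comp.1 (NR_sub _ _ _ h7))
    exact hne (hF c hc c' hc' (Cls_trans h8 (Cls_symm h9)))

end

end Pool.Agent.H623.DG
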